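import Pool.Agent.J4H60.PM.Circ

set_option autoImplicit false

namespace Pool.Agent.J4H60.PM

open Finset MvPolynomial
open scoped NNReal

section

variable {𝕜 : Type} [NormedField 𝕜] {V : Type} {s : ℕ}

/-- one step of a straight-line program, with the bookkeeping of the absolute value program -/
def Step (g : Fin s → MvPolynomial V 𝕜) (m : Fin s → ℝ) (i : Fin s) : Prop :=
  (∃ v, g i = X v ∧ m i = 1) ∨ (∃ c, g i = C c ∧ m i = ‖c‖) ∨
    (∃ a b, a < i ∧ b < i ∧ ((g i = g a + g b ∧ m i = m a + m b) ∨
      (g i = g a * g b ∧ m i = m a * m b)))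

inductive Op (𝕜 V : Type) (s : ℕ) : Type
  | var (v : V)
  | const (c : 𝕜)
  | add (a b : Fin s)
  | mul (a b : Fin s)

def Op.valid (g : Fin s → MvPolynomial V 𝕜) (m : Fin s → ℝ) (i : Fin s) : Op 𝕜 V s → Prop
  | .var v => g i = X v ∧ m i = 1
  | .const c => g i = C c ∧ m i = ‖c‖
  | .add a b => a < i ∧ b < i ∧ g i = g a + g b ∧ m i = m a + m b
  | .mul a b => a < i ∧ b < i ∧ g i = g a * g b ∧ m i = m a * m b

theorem exists_op {g : Fin s → MvPolynomial V 𝕜} {m : Fin s → ℝ} {i : Fin s} (h : Step g m i) :
    ∃ o : Op 𝕜 V s, o.valid g m i := by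
  rcases h with ⟨v, h⟩ | ⟨c, h⟩ | ⟨a, b, ha, hb, h | h⟩
  · exact ⟨.var v, h⟩
  · exact ⟨.const c, h⟩
  · exact ⟨.add a b, ha, hb, h⟩
  · exact ⟨.mul a b, ha, hb, h⟩

open Classical in
/-- the absolute value program -/
noncomputable def absP (o : Fin s → Op 𝕜 V s) (i : Fin s) : MvPolynomial V ℝ≥0 :=
  match o i with
  | .var v => X v
  | .const c => C ‖c‖₊
  | .add a b => if _h : a < i ∧ b < i then absP o a + absP o b else 0
  | .mul a b => if _h : a < i ∧ b < i then absP o a * absP o b else 0
termination_by i.1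
decreasing_by
  all_goals (first | exact _h.1 | exact _h.2)

theorem absP_spec {g : Fin s → MvPolynomial V 𝕜} {m : Fin s → ℝ} {o : Fin s → Op 𝕜 V s}
    (ho : ∀ i, (o i).valid g m i) : NNProg (absP o) ∧
    (∀ (n : ℕ) (i : Fin s), i.1 = n → (∀ d, ‖(g i).coeff d‖ ≤ (((absP o i).coeff d : ℝ≥0) : ℝ)) ∧
      ((eval (fun _ => (1 : ℝ≥0)) (absP o i) : ℝ≥0) : ℝ) = m i) := by
  constructor
  · intro i
    have hi := ho i
    rw [absP]
    cases h : o i with
    | var v => exact Or.inl ⟨v, by simp⟩
    | const c => exact Or.inr (Or.inl ⟨_, by simp; rfl⟩)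
    | add a b =>
      rw [h] at hi
      refine Or.inr (Or.inr ⟨a, b, hi.1, hi.2.1, Or.inl ?_⟩)
      simp only
      rw [dif_pos ⟨hi.1, hi.2.1⟩]
    | mul a b =>
      rw [h] at hi
      refine Or.inr (Or.inr ⟨a, b, hi.1, hi.2.1, Or.inr ?_⟩)
      simp only
      rw [dif_pos ⟨hi.1, hi.2.1⟩]
  · intro n
    induction n using Nat.strong_induction_on with
    | _ n ih =>
      intro i hin
      have hi := ho i
      rw [absP]
      cases h : o i with
      | var v =>
        rw [h] at hi
        simp only
        rw [hi.1, hi.2]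
        constructor
        · intro d
          classical
          rw [coeff_X, coeff_X]
          split_ifs <;> simp
        · simp
      | const c =>
        rw [h] at hi
        simp only
        rw [hi.1, hi.2]
        constructor
        · intro d
          classical
          rw [coeff_C, coeff_C]
          split_ifs <;> simp
        · simp
      | add a b =>
        rw [h] at hi
        simp only
        rw [dif_pos ⟨hi.1, hi.2.1⟩, hi.2.2.1, hi.2.2.2]
        have ha := ih a.1 (by have := hi.1; rw [← hin]; exact this) a rfl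
        have hb := ih b.1 (by have := hi.2.1; rw [← hin]; exact this) b rfl
        constructor
        · intro d
          rw [coeff_add, coeff_add]
          push_cast
          exact le_trans (norm_add_le _ _) (add_le_add (ha.1 d) (hb.1 d))
        · rw [map_add]
          push_cast
          rw [ha.2, hb.2]
      | mul a b =>
        rw [h] at hi
        simp only
        rw [dif_pos ⟨hi.1, hi.2.1⟩, hi.2.2.1, hi.2.2.2]
        have ha := ih a.1 (by have := hi.1; rw [← hin]; exact this) a rfl
        have hb := ih b.1 (by have := hi.2.1; rw [← hin]; exact this) b rfl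
        constructor
        · intro d
          classical
          rw [coeff_mul, coeff_mul]
          push_cast
          refine le_trans (norm_sum_le _ _) (Finset.sum_le_sum fun x _ => ?_)
          rw [norm_mul]
          exact mul_le_mul (ha.1 _) (hb.1 _) (norm_nonneg _) (NNReal.coe_nonneg _)
        · rw [map_mul]
          push_cast
          rw [ha.2, hb.2]

theorem exists_abs {g : Fin s → MvPolynomial V 𝕜} {m : Fin s → ℝ} (h : ∀ i, Step g m i) :
    ∃ P : Fin s → MvPolynomial V ℝ≥0, NNProg P ∧
      (∀ i d, ‖(g i).coeff d‖ ≤ (((P i).coeff d : ℝ≥0) : ℝ)) ∧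
      ∀ i, ((eval (fun _ => (1 : ℝ≥0)) (P i) : ℝ≥0) : ℝ) = m i := by
  choose o ho using fun i => exists_op (h i)
  have := absP_spec ho
  exact ⟨absP o, this.1, fun i => (this.2 i.1 i rfl).1, fun i => (this.2 i.1 i rfl).2⟩

end

/-- the coefficients of the permanent -/
theorem coeff_perm {𝕜 : Type} [Field 𝕜] {n : ℕ} (σ : Equiv.Perm (Fin n)) :
    (∑ τ : Equiv.Perm (Fin n), ∏ k : Fin n, (X (k, τ k) : MvPolynomial (Fin n × Fin n) 𝕜)).coeff
      (pmono σ) = 1 := by
  classical
  rw [coeff_sum]
  have h : ∀ τ : Equiv.Perm (Fin n),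
      (∏ k : Fin n, (X (k, τ k) : MvPolynomial (Fin n × Fin n) 𝕜)) = monomial (pmono τ) 1 := by
    intro τ
    unfold pmono mono
    simp only [X]
    rw [← monomial_sum_one]
    congr 1
    simp
  rw [Finset.sum_eq_single σ]
  · rw [h, coeff_monomial, if_pos rfl]
  · intro τ _ hτ
    rw [h, coeff_monomial, if_neg]
    intro h2
    apply hτ
    ext1 i
    have h3 := DFunLike.congr_fun h2 (i, τ i)
    rw [pmono_apply, pmono_apply, if_pos rfl] at h3
    by_contra hne
    rw [if_neg (fun hh => hne hh.symm)] at h3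
    exact one_ne_zero h3
  · intro h; exact absurd (Finset.mem_univ _) h

end Pool.Agent.J4H60.PM
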