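import Pool.Agent.J4H60.PM.Key

set_option autoImplicit false

namespace Pool.Agent.J4H60.PM

open Finset
open scoped NNReal

/-- the sum of the coefficients -/
noncomputable def total {n : ℕ} (P : Pol n) : ℝ≥0 := ∑ m ∈ P.support, P.coeff m

/-- the monomials of the partial matchings with rows `y` and columns `y'` -/
noncomputable def mset {n : ℕ} (y y' : Fin n → Bool) : Finset ((Fin n × Fin n) →₀ ℕ) :=
  (univ.filter (fun σ : Equiv.Perm (Fin n) => ∀ i, y' (σ i) = y i)).image (fun σ => mono σ y)

theorem mset_left {n : ℕ} {y y' : Fin n → Bool} {m : (Fin n × Fin n) →₀ ℕ}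
    (h : m ∈ mset y y') : y = fun i => decide (∃ j, m (i, j) ≠ 0) := by
  unfold mset at h
  rw [Finset.mem_image] at h
  obtain ⟨σ, hσ, rfl⟩ := h
  funext i
  simp only [mono_apply]
  by_cases h : y i = true
  · rw [h]
    symm
    rw [decide_eq_true_iff]
    exact ⟨σ i, by simp⟩
  · have h0 := Bool.eq_false_iff.2 h
    rw [h0]
    symm
    rw [decide_eq_false_iff_not]
    rintro ⟨j, hj⟩
    apply hj
    rw [if_neg]
    intro hh
    exact absurd hh.1 (by simp)

theorem mset_right {n : ℕ} {y y' : Fin n → Bool} {m : (Fin n × Fin n) →₀ ℕ}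
    (h : m ∈ mset y y') : y' = fun j => decide (∃ i, m (i, j) ≠ 0) := by
  unfold mset at h
  rw [Finset.mem_image] at h
  obtain ⟨σ, hσ, rfl⟩ := h
  have hσ := (Finset.mem_filter.1 hσ).2
  funext j
  simp only [mono_apply]
  by_cases h : y' j = true
  · rw [h]
    symm
    rw [decide_eq_true_iff]
    refine ⟨σ.symm j, ?_⟩
    rw [if_pos]
    · exact one_ne_zero
    · refine ⟨?_, by simp⟩
      rw [← hσ]
      simpa using h
  · rw [Bool.eq_false_iff.2 h]
    symm
    rw [decide_eq_false_iff_not]
    rintro ⟨i, hi⟩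
    apply hi
    rw [if_neg]
    rintro ⟨h1, rfl⟩
    rw [hσ] at h
    exact h h1

/-- the part of the total mass in one type -/
noncomputable def part {n : ℕ} (P : Pol n) (y y' : Fin n → Bool) : ℝ≥0 :=
  ∑ m ∈ mset y y', P.coeff m

theorem sum_part {n : ℕ} (P : Pol n) : ∑ y, ∑ y', part P y y' ≤ total P := by
  classical
  unfold part
  rw [← Fintype.sum_prod_type' (f := fun (y y' : Fin n → Bool) => ∑ m ∈ mset y y', P.coeff m)]
  rw [← Finset.sum_biUnion]
  · unfold total
    rw [← Finset.sum_filter_add_sum_filter_not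
      (univ.biUnion fun x : (Fin n → Bool) × (Fin n → Bool) => mset x.1 x.2)
      (fun m => m ∈ P.support)]
    rw [Finset.sum_eq_zero (s := filter (fun m => ¬ m ∈ P.support) _)]
    · rw [add_zero]
      apply Finset.sum_le_sum_of_subset
      intro m hm
      exact (Finset.mem_filter.1 hm).2
    · intro m hm
      have := (Finset.mem_filter.1 hm).2
      exact MvPolynomial.notMem_support_iff.1 this
  · intro a _ b _ hab
    rw [Function.onFun, Finset.disjoint_left]
    intro m hm hm'
    apply hab
    apply Prod.ext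
    · rw [mset_left hm, mset_left hm']
    · rw [mset_right hm, mset_right hm']

theorem fib {n t : ℕ} (P : Fin t → Pol n) (w w' : Fin n → Fin t) :
    ∑ σ ∈ univ.filter (fun σ : Equiv.Perm (Fin n) => ∀ i, w' (σ i) = w i),
      ∏ j, (P j).coeff (mono σ (fun i => decide (w i = j))) ≤
    ∏ j, part (P j) (fun i => decide (w i = j)) (fun i => decide (w' i = j)) := by
  classical
  unfold part
  rw [Finset.prod_univ_sum]
  set S := univ.filter (fun σ : Equiv.Perm (Fin n) => ∀ i, w' (σ i) = w i) with hS
  have h1 : ∑ σ ∈ S, ∏ j, (P j).coeff (mono σ (fun i => decide (w i = j))) =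
      ∑ x ∈ S.image (fun σ => fun j : Fin t => mono σ (fun i => decide (w i = j))),
        ∏ j, (P j).coeff (x j) := by
    rw [Finset.sum_image]
    intro σ _ τ _ h
    simp only at h
    ext1 i
    have h2 := congrFun h (w i)
    have h3 := DFunLike.congr_fun h2 (i, σ i)
    rw [mono_apply, mono_apply] at h3
    simp only [decide_true, true_and, if_true] at h3
    by_contra hne
    rw [if_neg (fun hh => hne hh.symm)] at h3
    exact one_ne_zero h3
  rw [h1]
  apply Finset.sum_le_sum_of_subset
  intro x hx
  rw [Finset.mem_image] at hx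
  obtain ⟨σ, hσ, rfl⟩ := hx
  rw [Fintype.mem_piFinset]
  intro j
  unfold mset
  rw [Finset.mem_image]
  refine ⟨σ, ?_, rfl⟩
  rw [Finset.mem_filter]
  refine ⟨Finset.mem_univ _, fun i => ?_⟩
  simp only [(Finset.mem_filter.1 hσ).2 i]

theorem card_le {n t : ℕ} (w w' : Fin n → Fin t) :
    (univ.filter (fun σ : Equiv.Perm (Fin n) => ∀ i, w' (σ i) = w i)).card ≤
      ∏ j, (Nat.factorial (Fintype.card {i // w i = j})) := by
  classical
  rcases (univ.filter (fun σ : Equiv.Perm (Fin n) => ∀ i, w' (σ i) = w i)).eq_empty_or_nonempty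
    with h | ⟨σ0, h0⟩
  · rw [h]; simp
  · have h0 := (Finset.mem_filter.1 h0).2
    rw [← DomMulAct.stabilizer_card w, Fintype.card_subtype]
    apply Finset.card_le_card_of_injOn (fun σ => σ0⁻¹ * σ)
    · intro σ hσ
      have hσ := (Finset.mem_filter.1 (Finset.mem_coe.1 hσ)).2
      rw [Finset.mem_coe, Finset.mem_filter]
      refine ⟨Finset.mem_univ _, ?_⟩
      funext i
      simp only [Function.comp]
      rw [← h0]
      simp [hσ]
    · intro σ _ τ _ h
      simpa using h

theorem mono_degree {n : ℕ} (σ : Equiv.Perm (Fin n)) (y : Fin n → Bool) :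
    (mono σ y).degree = (univ.filter (fun i => y i = true)).card := by
  unfold mono
  rw [map_sum]
  simp

/-- the product inequality -/
theorem prod_ineq {n t : ℕ} {p : ℝ} (hp : 0 < p) (hp1 : p ≤ 1) (hSL : SL t p)
    (P : Fin t → Pol n) (d : Fin t → ℕ) (hP : ∀ j, (P j).IsHomogeneous (d j)) :
    ∑ σ : Equiv.Perm (Fin n), ((∏ j, P j).coeff (pmono σ)) ^ p ≤
      ((∏ j, Nat.factorial (d j) : ℕ) : ℝ≥0) ^ (1 - p) * (∏ j, total (P j)) ^ p := by
  classical
  set B : ℝ≥0 := ((∏ j, Nat.factorial (d j) : ℕ) : ℝ≥0) with hB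
  have h1 : ∀ σ : Equiv.Perm (Fin n), ((∏ j, P j).coeff (pmono σ)) ^ p ≤
      ∑ w : Fin n → Fin t, (∏ j, (P j).coeff (mono σ (fun i => decide (w i = j)))) ^ p := by
    intro σ
    exact le_trans (NNReal.rpow_le_rpow (coeff_prod_le P σ) hp.le) (subadd _ _ hp hp1)
  refine le_trans (Finset.sum_le_sum fun σ _ => h1 σ) ?_
  rw [Finset.sum_comm]
  have h2 : ∀ w : Fin n → Fin t,
      ∑ σ : Equiv.Perm (Fin n),
        (∏ j, (P j).coeff (mono σ (fun i => decide (w i = j)))) ^ p ≤
      B ^ (1 - p) * ∑ w' : Fin n → Fin t,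
        ∏ j, (part (P j) (fun i => decide (w i = j)) (fun i => decide (w' i = j))) ^ p := by
    intro w
    by_cases hw : ∀ j, Fintype.card {i // w i = j} = d j
    · have h3 : ∑ σ : Equiv.Perm (Fin n),
          (∏ j, (P j).coeff (mono σ (fun i => decide (w i = j)))) ^ p =
          ∑ w' : Fin n → Fin t,
          ∑ σ ∈ univ.filter (fun σ : Equiv.Perm (Fin n) => (fun i => w (σ.symm i)) = w'),
          (∏ j, (P j).coeff (mono σ (fun i => decide (w i = j)))) ^ p := by
        rw [Finset.sum_fiberwise]
      rw [h3, Finset.mul_sum]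
      apply Finset.sum_le_sum
      intro w' _
      have h4 : univ.filter (fun σ : Equiv.Perm (Fin n) => (fun i => w (σ.symm i)) = w') =
          univ.filter (fun σ : Equiv.Perm (Fin n) => ∀ i, w' (σ i) = w i) := by
        ext σ
        simp only [Finset.mem_filter, Finset.mem_univ, true_and]
        constructor
        · rintro rfl i
          simp
        · intro h
          funext i
          rw [← h]
          simp
      rw [h4]
      refine le_trans (conc _ _ hp hp1) ?_
      apply mul_le_mul
      · apply NNReal.rpow_le_rpow _ (by linarith)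
        rw [hB]
        have := card_le w w'
        simp only [hw] at this
        exact_mod_cast this
      · refine le_trans (NNReal.rpow_le_rpow (fib P w w') hp.le) ?_
        rw [NNReal.finsetProd_rpow]
      · exact zero_le
      · exact zero_le
    · have h3 : ∑ σ : Equiv.Perm (Fin n),
          (∏ j, (P j).coeff (mono σ (fun i => decide (w i = j)))) ^ p = 0 := by
        push Not at hw
        obtain ⟨j, hj⟩ := hw
        apply Finset.sum_eq_zero
        intro σ _
        rw [Finset.prod_eq_zero (Finset.mem_univ j), NNReal.zero_rpow hp.ne']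
        apply (hP j).coeff_eq_zero
        rw [mono_degree]
        intro h
        apply hj
        rw [← h, Fintype.card_subtype]
        congr 1
        ext i
        simp
      rw [h3]
      exact zero_le
  refine le_trans (Finset.sum_le_sum fun w _ => h2 w) ?_
  rw [← Finset.mul_sum]
  apply mul_le_mul le_rfl _ zero_le zero_le
  have h5 : ∀ w : Fin n → Fin t, ∑ w' : Fin n → Fin t,
        ∏ j, (part (P j) (fun i => decide (w i = j)) (fun i => decide (w' i = j))) ^ p ≤
      ∏ j, (∑ y', part (P j) (fun i => decide (w i = j)) y') ^ p := by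
    intro w
    exact tensor hSL n (fun j y' => part (P j) (fun i => decide (w i = j)) y')
  refine le_trans (Finset.sum_le_sum fun w _ => h5 w) ?_
  refine le_trans (tensor hSL n (fun j y => ∑ y', part (P j) y y')) ?_
  rw [← NNReal.finsetProd_rpow]
  apply Finset.prod_le_prod' 
  intro j _
  exact NNReal.rpow_le_rpow (sum_part (P j)) hp.le

end Pool.Agent.J4H60.PM
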