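import Pool.Agent.J4H60.PM.Sys
import Pool.Agent.J4H60.PM.Prod

set_option autoImplicit false

namespace Pool.Agent.J4H60.PM

open Finset MvPolynomial
open scoped NNReal

theorem hc_mul {V : Type} (p q : MvPolynomial V ℝ≥0) (e : ℕ) :
    homogeneousComponent e (p * q) =
      ∑ x ∈ antidiagonal e, homogeneousComponent x.1 p * homogeneousComponent x.2 q := by
  classical
  ext m
  rw [coeff_homogeneousComponent, coeff_sum]
  simp only [coeff_mul, coeff_homogeneousComponent]
  rw [Finset.sum_comm]
  have h1 : ∀ x ∈ antidiagonal m, ∑ y ∈ antidiagonal e,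
      (if x.1.degree = y.1 then coeff x.1 p else 0) *
        (if x.2.degree = y.2 then coeff x.2 q else 0) =
      if m.degree = e then coeff x.1 p * coeff x.2 q else 0 := by
    intro x hx
    rw [Finset.HasAntidiagonal.mem_antidiagonal] at hx
    have hd : x.1.degree + x.2.degree = m.degree := by
      rw [← map_add, hx]
    by_cases h : m.degree = e
    · rw [if_pos h, Finset.sum_eq_single (x.1.degree, x.2.degree)]
      · simp
      · rintro ⟨a, b⟩ _ hab
        by_cases h1 : x.1.degree = a
        · by_cases h2 : x.2.degree = b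
          · exfalso
            apply hab
            rw [← h1, ← h2]
          · simp [h2]
        · simp [h1]
      · intro hh
        exfalso
        apply hh
        rw [Finset.HasAntidiagonal.mem_antidiagonal]
        simp only
        omega
    · rw [if_neg h]
      apply Finset.sum_eq_zero
      rintro ⟨a, b⟩ hab
      rw [Finset.HasAntidiagonal.mem_antidiagonal] at hab
      by_cases h1 : x.1.degree = a
      · by_cases h2 : x.2.degree = b
        · exfalso
          apply h
          simp only at hab
          omega
        · simp [h2]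
      · simp [h1]
  rw [Finset.sum_congr rfl h1]
  by_cases h : m.degree = e
  · simp [h]
  · simp [h]

/-- straight-line programs with nonnegative constants -/
def NNProg {V : Type} {s : ℕ} (P : Fin s → MvPolynomial V ℝ≥0) : Prop :=
  ∀ i, (∃ v, P i = X v) ∨ (∃ c, P i = C c) ∨
    ∃ a b, a < i ∧ b < i ∧ (P i = P a + P b ∨ P i = P a * P b)

theorem sys_of_prog {V : Type} {s n k : ℕ} (hk : 1 ≤ k) {P : Fin s → MvPolynomial V ℝ≥0}
    (hP : NNProg P) :
    Sys (fun x : Fin s × Fin n => homogeneousComponent (x.2.1 + 1) (P x.1))
      (fun x => x.2.1 + 1) k := by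
  constructor
  · intro i
    exact homogeneousComponent_isHomogeneous _ _
  · have main : ∀ (u : ℕ) (hu : u < s) (e : ℕ), k < e → e ≤ n →
        homogeneousComponent e (P ⟨u, hu⟩) ∈ Submodule.span ℝ≥0
        (Set.range (fun q : Pairs (fun x : Fin s × Fin n => x.2.1 + 1) e =>
          (fun x : Fin s × Fin n => homogeneousComponent (x.2.1 + 1) (P x.1)) q.1.1 *
          (fun x : Fin s × Fin n => homogeneousComponent (x.2.1 + 1) (P x.1)) q.1.2)) := by
      intro u
      induction u using Nat.strong_induction_on with
      | _ u ih =>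
        intro hu e hke hen
        rcases hP ⟨u, hu⟩ with ⟨v, hv⟩ | ⟨c, hc⟩ | ⟨a, b, ha, hb, hab⟩
        · rw [hv]
          have h1 : homogeneousComponent e (X v : MvPolynomial V ℝ≥0) = 0 := by
            rw [homogeneousComponent_of_mem (isHomogeneous_X ℝ≥0 v), if_neg]
            omega
          rw [h1]
          exact Submodule.zero_mem _
        · rw [hc]
          have h1 : homogeneousComponent e (C c : MvPolynomial V ℝ≥0) = 0 := by
            rw [homogeneousComponent_of_mem (isHomogeneous_C V c), if_neg]
            omega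
          rw [h1]
          exact Submodule.zero_mem _
        · have ha' : a.1 < u := ha
          have hb' : b.1 < u := hb
          rcases hab with h | h
          · rw [h, map_add]
            exact Submodule.add_mem _ (ih a.1 ha' a.2 e hke hen) (ih b.1 hb' b.2 e hke hen)
          · rw [h, hc_mul]
            apply Submodule.sum_mem
            rintro ⟨x, y⟩ hxy
            rw [Finset.HasAntidiagonal.mem_antidiagonal] at hxy
            simp only at hxy ⊢
            rcases Nat.eq_zero_or_pos x with hx | hx
            · subst hx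
              rw [zero_add] at hxy
              subst hxy
              rw [homogeneousComponent_zero, ← smul_eq_C_mul]
              exact Submodule.smul_mem _ _ (ih b.1 hb' b.2 y hke hen)
            · rcases Nat.eq_zero_or_pos y with hy | hy
              · subst hy
                rw [add_zero] at hxy
                subst hxy
                rw [homogeneousComponent_zero, mul_comm, ← smul_eq_C_mul]
                exact Submodule.smul_mem _ _ (ih a.1 ha' a.2 x hke hen)
              · have h3 := span_pair
                  (fun x : Fin s × Fin n => homogeneousComponent (x.2.1 + 1) (P x.1))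
                  (fun x : Fin s × Fin n => x.2.1 + 1) (a, ⟨x - 1, by omega⟩)
                  (b, ⟨y - 1, by omega⟩) e (by simp only; omega) (by simp only; omega)
                  (by simp only; omega)
                simp only at h3
                have hx1 : x - 1 + 1 = x := by omega
                have hy1 : y - 1 + 1 = y := by omega
                rw [hx1, hy1] at h3
                exact h3
    intro i hi
    exact main i.1.1 i.1.2 (i.2.1 + 1) hi i.2.2

theorem total_eq {n : ℕ} (P : Pol n) : total P = eval (fun _ => (1 : ℝ≥0)) P := by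
  unfold total
  rw [eval_eq]
  simp

theorem total_hc_le {n : ℕ} (P : Pol n) (e : ℕ) :
    total (homogeneousComponent e P) ≤ total P := by
  classical
  by_cases he : e ≤ P.totalDegree
  · have h1 : total P = ∑ i ∈ range (P.totalDegree + 1), total (homogeneousComponent i P) := by
      conv_lhs => rw [total_eq, ← sum_homogeneousComponent P, map_sum]
      apply Finset.sum_congr rfl
      intro i _
      rw [total_eq]
    rw [h1]
    exact Finset.single_le_sum (f := fun i => total (homogeneousComponent i P))
      (fun _ _ => zero_le) (Finset.mem_range.2 (by omega))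
  · rw [homogeneousComponent_eq_zero _ _ (by omega)]
    simp [total]

theorem pmono_degree {n : ℕ} (σ : Equiv.Perm (Fin n)) : (pmono σ).degree = n := by
  unfold pmono
  rw [mono_degree]
  simp

/-- the size-mass inequality for programs with nonnegative constants -/
theorem nn_main {n s t k : ℕ} (hn : 1 ≤ n) (hk : 1 ≤ k) (hnk : 2 * n ≤ (t + 2) * k)
    {p : ℝ} (hp : 0 < p) (hp1 : p ≤ 1) (hSL : SL (t + 1) p)
    {P : Fin s → Pol n} (hP : NNProg P) (u : Fin s)
    (hcoeff : ∀ σ, 1 ≤ (P u).coeff (pmono σ))
    (B : ℕ) (hB : ∀ δ : Fin (t + 1) → ℕ, (∀ b, δ b ≤ k) → ∑ b, δ b = n →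
      ∏ b, (δ b).factorial ≤ B) :
    ((n.factorial : ℕ) : ℝ≥0) ≤ ((B * Nr t (s * n) : ℕ) : ℝ≥0) ^ (1 - p) *
      (eval (fun _ => (1 : ℝ≥0)) (P u)) ^ p := by
  classical
  have hS := sys_of_prog (n := n) hk hP
  obtain ⟨I, hI, Q, δ, h1, h2, h3, h4, h5⟩ := decomp hk t (Fin s × Fin n) _ _ hS
    (u, ⟨n - 1, by omega⟩) (by simp only; omega)
  simp only at h4 h5
  have hn1 : n - 1 + 1 = n := by omega
  rw [hn1] at h4 h5
  rw [Fintype.card_prod, Fintype.card_fin, Fintype.card_fin] at h1
  have hc : ∀ σ, 1 ≤ (∑ a, ∏ b, Q a b).coeff (pmono σ) := by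
    intro σ
    rw [← h5, coeff_homogeneousComponent, if_pos (pmono_degree σ)]
    exact hcoeff σ
  have h6 : ((n.factorial : ℕ) : ℝ≥0) ≤
      ∑ σ : Equiv.Perm (Fin n), ∑ a, ((∏ b, Q a b).coeff (pmono σ)) ^ p := by
    calc ((n.factorial : ℕ) : ℝ≥0) = ∑ σ : Equiv.Perm (Fin n), (1 : ℝ≥0) := by
          simp [Fintype.card_perm]
      _ ≤ _ := by
          apply Finset.sum_le_sum
          intro σ _
          refine le_trans ?_ (subadd univ (fun a => (∏ b, Q a b).coeff (pmono σ)) hp hp1)
          rw [← coeff_sum]
          calc (1 : ℝ≥0) = 1 ^ p := (NNReal.one_rpow p).symm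
            _ ≤ _ := NNReal.rpow_le_rpow (hc σ) hp.le
  rw [Finset.sum_comm] at h6
  have h7 : ∀ a, ∑ σ : Equiv.Perm (Fin n), ((∏ b, Q a b).coeff (pmono σ)) ^ p ≤
      (B : ℝ≥0) ^ (1 - p) * (∏ b, total (Q a b)) ^ p := by
    intro a
    refine le_trans (prod_ineq hp hp1 hSL (Q a) (δ a) (h2 a)) ?_
    apply mul_le_mul _ le_rfl zero_le zero_le
    apply NNReal.rpow_le_rpow _ (by linarith)
    exact_mod_cast hB (δ a) (h3 a) (h4 a)
  refine le_trans h6 (le_trans (Finset.sum_le_sum fun a _ => h7 a) ?_)
  rw [← Finset.mul_sum]
  have h8 := conc univ (fun a => ∏ b, total (Q a b)) hp hp1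
  refine le_trans (mul_le_mul le_rfl h8 zero_le zero_le) ?_
  rw [← mul_assoc, ← NNReal.mul_rpow]
  apply mul_le_mul
  · apply NNReal.rpow_le_rpow _ (by linarith)
    rw [Finset.card_univ]
    push_cast
    apply mul_le_mul le_rfl _ zero_le zero_le
    exact_mod_cast h1
  · apply NNReal.rpow_le_rpow _ hp.le
    have h9 : ∑ a, ∏ b, total (Q a b) = total (homogeneousComponent n (P u)) := by
      rw [h5, total_eq, map_sum]
      apply Finset.sum_congr rfl
      intro a _
      rw [map_prod]
      apply Finset.prod_congr rfl
      intro b _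
      rw [total_eq]
    rw [h9, ← total_eq]
    exact total_hc_le _ _
  · exact zero_le
  · exact zero_le

end Pool.Agent.J4H60.PM
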