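import Pool.Agent.J4H60.PM.Letter
import Pool.Agent.J4H60.PM.Circ

set_option autoImplicit false

namespace Pool.Agent.J4H60.PM

open Finset MvPolynomial
open scoped NNReal

theorem factorial_upper (m : ℕ) :
    ((m.factorial : ℕ) : ℝ) ≤ ((m : ℝ) + 1) ^ (m + 1) * Real.exp (-(m : ℝ)) := by
  induction m with
  | zero => simp
  | succ m ih =>
    rw [Nat.factorial_succ]
    push_cast
    have h1 : (0 : ℝ) < (m : ℝ) + 1 := by positivity
    have h2 : (0 : ℝ) < (m : ℝ) + 1 + 1 := by positivity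
    have h3 : Real.exp 1 ≤ (((m : ℝ) + 1 + 1) / ((m : ℝ) + 1)) ^ (m + 2) := by
      have h4 : (1 : ℝ) ≤ (m + 2 : ℕ) * Real.log (((m : ℝ) + 1 + 1) / ((m : ℝ) + 1)) := by
        have h5 := Real.log_le_sub_one_of_pos (div_pos h1 h2)
        have h6 : Real.log (((m : ℝ) + 1) / ((m : ℝ) + 1 + 1)) =
            - Real.log (((m : ℝ) + 1 + 1) / ((m : ℝ) + 1)) := by
          rw [← Real.log_inv, inv_div]
        rw [h6] at h5
        have h7 : ((m : ℝ) + 1) / ((m : ℝ) + 1 + 1) - 1 = - (1 / ((m : ℝ) + 2)) := by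
          field_simp
          ring
        rw [h7] at h5
        have h8 : 1 / ((m : ℝ) + 2) ≤ Real.log (((m : ℝ) + 1 + 1) / ((m : ℝ) + 1)) := by linarith
        push_cast
        calc (1 : ℝ) = ((m : ℝ) + 2) * (1 / ((m : ℝ) + 2)) := by field_simp
          _ ≤ _ := mul_le_mul_of_nonneg_left h8 (by positivity)
      have h9 : 0 < ((m : ℝ) + 1 + 1) / ((m : ℝ) + 1) := div_pos h2 h1
      calc Real.exp 1 ≤ Real.exp ((m + 2 : ℕ) * Real.log (((m : ℝ) + 1 + 1) / ((m : ℝ) + 1))) :=
            Real.exp_le_exp.2 h4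
        _ = _ := by
            rw [← Real.log_pow, Real.exp_log (pow_pos h9 _)]
    have h10 : ((m : ℝ) + 1) ^ (m + 2) * Real.exp 1 ≤ ((m : ℝ) + 1 + 1) ^ (m + 2) := by
      rw [div_pow, le_div_iff₀ (pow_pos h1 _)] at h3
      linarith
    have h11 : Real.exp (-((m : ℝ) + 1)) = Real.exp (-(m : ℝ)) * Real.exp (-1) := by
      rw [← Real.exp_add]; congr 1; ring
    have h12 : Real.exp (-1) * Real.exp 1 = 1 := by
      rw [← Real.exp_add]; simp
    rw [h11]
    calc ((m : ℝ) + 1) * ((m.factorial : ℕ) : ℝ)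
        ≤ ((m : ℝ) + 1) * (((m : ℝ) + 1) ^ (m + 1) * Real.exp (-(m : ℝ))) :=
          mul_le_mul_of_nonneg_left ih h1.le
      _ = (((m : ℝ) + 1) ^ (m + 2) * Real.exp 1) * (Real.exp (-(m : ℝ)) * Real.exp (-1)) := by
          have : Real.exp (-(m : ℝ)) = Real.exp (-(m : ℝ)) * (Real.exp (-1) * Real.exp 1) := by
            rw [h12, mul_one]
          conv_lhs => rw [this]
          ring
      _ ≤ ((m : ℝ) + 1 + 1) ^ (m + 2) * (Real.exp (-(m : ℝ)) * Real.exp (-1)) :=
          mul_le_mul_of_nonneg_right h10 (by positivity)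

theorem prod_factorial_upper {T k n : ℕ} (δ : Fin T → ℕ) (h1 : ∀ b, δ b ≤ k)
    (h2 : ∑ b, δ b = n) :
    ((∏ b, (δ b).factorial : ℕ) : ℝ) ≤ ((k : ℝ) + 1) ^ (n + T) * Real.exp (-(n : ℝ)) := by
  push_cast
  calc ∏ b, (((δ b).factorial : ℕ) : ℝ)
      ≤ ∏ b, (((k : ℝ) + 1) ^ (δ b + 1) * Real.exp (-(δ b : ℝ))) := by
        apply Finset.prod_le_prod
        · intro b _; positivity
        · intro b _
          refine le_trans (factorial_upper (δ b)) ?_
          apply mul_le_mul_of_nonneg_right _ (Real.exp_pos _).le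
          apply pow_le_pow_left₀ (by positivity)
          have : (δ b : ℝ) ≤ k := by exact_mod_cast h1 b
          linarith
    _ = _ := by
        rw [Finset.prod_mul_distrib, Finset.prod_pow_eq_pow_sum, Finset.sum_add_distrib, h2,
          ← Real.exp_sum, Finset.sum_neg_distrib]
        congr 2
        · simp
        · congr 1
          rw [← h2]
          push_cast
          rfl

theorem Nr_le (r : ℕ) : ∀ M : ℕ, Nr r M ≤ (2 ^ r * M) ^ r := by
  induction r with
  | zero => intro M; simp [Nr]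
  | succ r ih =>
    intro M
    have h1 := ih (2 * M)
    have h2 : 2 ^ r * (2 * M) = 2 ^ (r + 1) * M := by ring
    rw [h2] at h1
    calc Nr (r + 1) M = M * Nr r (2 * M) := rfl
      _ ≤ (2 ^ (r + 1) * M) * (2 ^ (r + 1) * M) ^ r := by
          apply Nat.mul_le_mul _ h1
          exact Nat.le_mul_of_pos_left _ (by positivity)
      _ = _ := by ring

/-- logarithmic form -/
theorem nn_log {n s t k : ℕ} (hn : 1 ≤ n) (hs : 1 ≤ s) (hk : 1 ≤ k) (hnk : 2 * n ≤ (t + 2) * k)
    {p : ℝ} (hp : 0 < p) (hp1 : p ≤ 1) (hSL : SL (t + 1) p)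
    {P : Fin s → Pol n} (hP : NNProg P) (u : Fin s)
    (hcoeff : ∀ σ, 1 ≤ (P u).coeff (pmono σ)) :
    n * Real.log n - n ≤ (1 - p) * ((n + (t + 1)) * Real.log (k + 1) - n +
      t * (t * Real.log 2 + Real.log s + Real.log n)) +
      p * Real.log ((eval (fun _ => (1 : ℝ≥0)) (P u) : ℝ≥0) : ℝ) := by
  set X : ℝ := ((k : ℝ) + 1) ^ (n + (t + 1)) * Real.exp (-(n : ℝ)) with hX
  have hXB : ∀ δ : Fin (t + 1) → ℕ, (∀ b, δ b ≤ k) → ∑ b, δ b = n →
      ∏ b, (δ b).factorial ≤ ⌊X⌋₊ := by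
    intro δ h1 h2
    apply Nat.le_floor
    exact prod_factorial_upper δ h1 h2
  have h := nn_main hn hk hnk hp hp1 hSL hP u hcoeff ⌊X⌋₊ hXB
  have hM1 : (1 : ℝ≥0) ≤ eval (fun _ => (1 : ℝ≥0)) (P u) := by
    rw [← total_eq]
    have h3 := hcoeff 1
    refine le_trans h3 ?_
    unfold total
    apply Finset.single_le_sum (f := fun m => (P u).coeff m) (fun _ _ => zero_le)
    rw [mem_support_iff]
    intro h4
    rw [h4] at h3
    exact absurd h3 (by simp)
  set M : ℝ≥0 := eval (fun _ => (1 : ℝ≥0)) (P u) with hMd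
  have hMpos : (0 : ℝ) < (M : ℝ) := lt_of_lt_of_le one_pos (by exact_mod_cast hM1)
  have hNpos : 1 ≤ Nr t (s * n) := Nr_pos t _ (Nat.mul_pos hs hn)
  have h' : ((n.factorial : ℕ) : ℝ) ≤ (((⌊X⌋₊ * Nr t (s * n) : ℕ) : ℝ)) ^ (1 - p) * (M : ℝ) ^ p := by
    have := (NNReal.coe_le_coe.2 h)
    push_cast at this
    push_cast
    exact this
  have hfpos : (0 : ℝ) < ((n.factorial : ℕ) : ℝ) := by
    exact_mod_cast Nat.factorial_pos n
  -- lower bound for n!
  have hfl : n * Real.log n - n ≤ Real.log ((n.factorial : ℕ) : ℝ) := by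
    have hn0 : (0 : ℝ) < n := by exact_mod_cast hn
    have h5 := Real.pow_div_factorial_le_exp (n : ℝ) hn0.le n
    rw [div_le_iff₀ hfpos] at h5
    have h6 := Real.log_le_log (pow_pos hn0 n) h5
    rw [Real.log_pow, Real.log_mul (Real.exp_pos _).ne' hfpos.ne', Real.log_exp] at h6
    linarith
  have hk0 : (0 : ℝ) < (k : ℝ) + 1 := by positivity
  have hXpos : 0 < X := by positivity
  have hlogX : Real.log X = (n + (t + 1)) * Real.log (k + 1) - n := by
    rw [hX, Real.log_mul (by positivity) (Real.exp_pos _).ne', Real.log_exp, Real.log_pow]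
    push_cast
    ring
  have hs0 : (0 : ℝ) < s := by exact_mod_cast hs
  have hn0 : (0 : ℝ) < n := by exact_mod_cast hn
  have hlogN : Real.log ((Nr t (s * n) : ℕ) : ℝ) ≤
      t * (t * Real.log 2 + Real.log s + Real.log n) := by
    have h5 : ((Nr t (s * n) : ℕ) : ℝ) ≤ ((2 : ℝ) ^ t * ((s : ℝ) * n)) ^ t := by
      exact_mod_cast Nr_le t (s * n)
    have h6 := Real.log_le_log (by exact_mod_cast hNpos) h5
    rw [Real.log_pow, Real.log_mul (by positivity) (by positivity), Real.log_pow,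
      Real.log_mul hs0.ne' hn0.ne'] at h6
    linarith
  have hflpos : 0 < ⌊X⌋₊ := by
    by_contra hcon
    have h5 : ⌊X⌋₊ = 0 := by omega
    rw [h5] at h'
    simp only [zero_mul, Nat.cast_zero] at h'
    rcases hp1.eq_or_lt with h6 | h6
    · -- p = 1
      obtain ⟨δ, hδ1, hδ2⟩ : ∃ δ : Fin (t + 1) → ℕ, (∀ b, δ b ≤ k) ∧ ∑ b, δ b = n := by
        -- from the decomposition
        have hS := sys_of_prog (n := n) hk hP
        obtain ⟨I, hI, Q, δ, g1, g2, g3, g4, g5⟩ := decomp hk t (Fin s × Fin n) _ _ hS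
          (u, ⟨n - 1, by omega⟩) (by simp only; omega)
        have hne : Nonempty I := by
          by_contra hemp
          rw [not_nonempty_iff] at hemp
          rw [Finset.univ_eq_empty, Finset.sum_empty] at g5
          have h7 := hcoeff 1
          have h8 : (P u).coeff (pmono (1 : Equiv.Perm (Fin n))) =
              (homogeneousComponent n (P u)).coeff (pmono (1 : Equiv.Perm (Fin n))) := by
            rw [coeff_homogeneousComponent, if_pos (pmono_degree _)]
          simp only at g5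
          rw [show n - 1 + 1 = n by omega] at g5
          rw [h8, g5] at h7
          simp at h7
        obtain ⟨a⟩ := hne
        refine ⟨δ a, g3 a, ?_⟩
        rw [g4 a]
        simp only
        omega
      have h7 := hXB δ hδ1 hδ2
      have h8 : 0 < ∏ b, (δ b).factorial := Finset.prod_pos fun b _ => Nat.factorial_pos _
      omega
    · rw [Real.zero_rpow (by linarith), zero_mul] at h'
      linarith
  have hprodpos : (0 : ℝ) < ((⌊X⌋₊ * Nr t (s * n) : ℕ) : ℝ) := by
    exact_mod_cast Nat.mul_pos hflpos hNpos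
  have h9 := Real.log_le_log hfpos h'
  rw [Real.log_mul (Real.rpow_pos_of_pos hprodpos _).ne' (Real.rpow_pos_of_pos hMpos _).ne',
    Real.log_rpow hprodpos, Real.log_rpow hMpos] at h9
  have h10 : Real.log ((⌊X⌋₊ * Nr t (s * n) : ℕ) : ℝ) ≤
      (n + (t + 1)) * Real.log (k + 1) - n + t * (t * Real.log 2 + Real.log s + Real.log n) := by
    push_cast
    rw [Real.log_mul (by exact_mod_cast hflpos.ne') (by exact_mod_cast (by omega : Nr t (s * n) ≠ 0))]
    have h11 : Real.log (⌊X⌋₊ : ℝ) ≤ Real.log X :=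
      Real.log_le_log (by exact_mod_cast hflpos) (Nat.floor_le hXpos.le)
    rw [hlogX] at h11
    linarith
  have h12 := mul_le_mul_of_nonneg_left h10 (by linarith : 0 ≤ 1 - p)
  linarith

end Pool.Agent.J4H60.PM
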