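import Pool.Agent.J4H60.PM.Sharp

set_option autoImplicit false

namespace Pool.Agent.J4H60.PM

open Finset MvPolynomial
open scoped NNReal

/-- `f` has decompositions into few products of polynomials of small degree -/
def Decs (n s : ℕ) (f : Pol n) : Prop :=
  ∀ t k : ℕ, 1 ≤ k → 2 * n ≤ (t + 2) * k →
    ∃ (I : Type) (_ : Fintype I) (P : I → Fin (t + 1) → Pol n) (δ : I → Fin (t + 1) → ℕ),
      Fintype.card I ≤ (2 ^ t * (s * n)) ^ t ∧
      (∀ a b, (P a b).IsHomogeneous (δ a b)) ∧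
      (∀ a b, δ a b ≤ k) ∧ (∀ a, ∑ b, δ a b = n) ∧ f = ∑ a, ∏ b, P a b

theorem core_main {n s t k : ℕ} (hk : 1 ≤ k) (hnk : 2 * n ≤ (t + 2) * k)
    {p : ℝ} (hp : 0 < p) (hp1 : p ≤ 1) (hSL : SL (t + 1) p)
    {f : Pol n} (hf : Decs n s f)
    (hcoeff : ∀ σ, 1 ≤ f.coeff (pmono σ))
    (B : ℕ) (hB : ∀ δ : Fin (t + 1) → ℕ, (∀ b, δ b ≤ k) → ∑ b, δ b = n →
      ∏ b, (δ b).factorial ≤ B) :
    1 ≤ B ∧ ((n.factorial : ℕ) : ℝ≥0) ≤ ((B * (2 ^ t * (s * n)) ^ t : ℕ) : ℝ≥0) ^ (1 - p) *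
      (eval (fun _ => (1 : ℝ≥0)) f) ^ p := by
  classical
  obtain ⟨I, hI, Q, δ, h1, h2, h3, h4, h5⟩ := hf t k hk hnk
  have hB1 : 1 ≤ B := by
    have hne : Nonempty I := by
      by_contra hemp
      rw [not_nonempty_iff] at hemp
      rw [Finset.univ_eq_empty, Finset.sum_empty] at h5
      have h7 := hcoeff 1
      rw [h5] at h7
      simp at h7
    obtain ⟨a⟩ := hne
    have h7 := hB (δ a) (h3 a) (h4 a)
    have h8 : 0 < ∏ b, (δ a b).factorial := Finset.prod_pos fun b _ => Nat.factorial_pos _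
    omega
  refine ⟨hB1, ?_⟩
  have hc : ∀ σ, 1 ≤ (∑ a, ∏ b, Q a b).coeff (pmono σ) := by
    intro σ
    rw [← h5]
    exact hcoeff σ
  have h6 : ((n.factorial : ℕ) : ℝ≥0) ≤
      ∑ σ : Equiv.Perm (Fin n), ∑ a, ((∏ b, Q a b).coeff (pmono σ)) ^ p := by
    calc ((n.factorial : ℕ) : ℝ≥0) = ∑ σ : Equiv.Perm (Fin n), (1 : ℝ≥0) := by
          simp [Fintype.card_perm]
      _ ≤ _ := by
          apply Finset.sum_le_sum
          intro σ _
          refine le_trans ?_ (subadd univ (fun a => (∏ b, Q a b).coeff (pmono σ)) hp hp1)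
          rw [← coeff_sum]
          calc (1 : ℝ≥0) = 1 ^ p := (NNReal.one_rpow p).symm
            _ ≤ _ := NNReal.rpow_le_rpow (hc σ) hp.le
  rw [Finset.sum_comm] at h6
  have h7 : ∀ a, ∑ σ : Equiv.Perm (Fin n), ((∏ b, Q a b).coeff (pmono σ)) ^ p ≤
      (B : ℝ≥0) ^ (1 - p) * (∏ b, total (Q a b)) ^ p := by
    intro a
    refine le_trans (prod_ineq hp hp1 hSL (Q a) (δ a) (h2 a)) ?_
    apply mul_le_mul _ le_rfl zero_le zero_le
    apply NNReal.rpow_le_rpow _ (by linarith)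
    exact_mod_cast hB (δ a) (h3 a) (h4 a)
  refine le_trans h6 (le_trans (Finset.sum_le_sum fun a _ => h7 a) ?_)
  rw [← Finset.mul_sum]
  have h8 := conc univ (fun a => ∏ b, total (Q a b)) hp hp1
  refine le_trans (mul_le_mul le_rfl h8 zero_le zero_le) ?_
  rw [← mul_assoc, ← NNReal.mul_rpow]
  apply mul_le_mul
  · apply NNReal.rpow_le_rpow _ (by linarith)
    rw [Finset.card_univ]
    push_cast
    apply mul_le_mul le_rfl _ zero_le zero_le
    exact_mod_cast h1
  · apply NNReal.rpow_le_rpow _ hp.le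
    have h9 : ∑ a, ∏ b, total (Q a b) = total f := by
      rw [h5, total_eq, map_sum]
      apply Finset.sum_congr rfl
      intro a _
      rw [map_prod]
      apply Finset.prod_congr rfl
      intro b _
      rw [total_eq]
    rw [h9, ← total_eq]
  · exact zero_le
  · exact zero_le

theorem core_log {n s t k : ℕ} (hn : 1 ≤ n) (hs : 1 ≤ s) (hk : 1 ≤ k)
    (hnk : 2 * n ≤ (t + 2) * k)
    {p : ℝ} (hp : 0 < p) (hp1 : p ≤ 1) (hSL : SL (t + 1) p)
    {f : Pol n} (hf : Decs n s f)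
    (hcoeff : ∀ σ, 1 ≤ f.coeff (pmono σ)) :
    n * Real.log n - n ≤ (1 - p) * ((n + (t + 1)) * Real.log (k + 1) - n +
      t * (t * Real.log 2 + Real.log s + Real.log n)) +
      p * Real.log ((eval (fun _ => (1 : ℝ≥0)) f : ℝ≥0) : ℝ) := by
  set X : ℝ := ((k : ℝ) + 1) ^ (n + (t + 1)) * Real.exp (-(n : ℝ)) with hX
  have hXB : ∀ δ : Fin (t + 1) → ℕ, (∀ b, δ b ≤ k) → ∑ b, δ b = n →
      ∏ b, (δ b).factorial ≤ ⌊X⌋₊ := by
    intro δ h1 h2
    apply Nat.le_floor
    exact prod_factorial_upper δ h1 h2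
  obtain ⟨hflpos, h⟩ := core_main hk hnk hp hp1 hSL hf hcoeff ⌊X⌋₊ hXB
  have hM1 : (1 : ℝ≥0) ≤ eval (fun _ => (1 : ℝ≥0)) f := by
    rw [← total_eq]
    have h3 := hcoeff 1
    refine le_trans h3 ?_
    unfold total
    apply Finset.single_le_sum (f := fun m => f.coeff m) (fun _ _ => zero_le)
    rw [mem_support_iff]
    intro h4
    rw [h4] at h3
    exact absurd h3 (by simp)
  set M : ℝ≥0 := eval (fun _ => (1 : ℝ≥0)) f with hMd
  have hMpos : (0 : ℝ) < (M : ℝ) := lt_of_lt_of_le one_pos (by exact_mod_cast hM1)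
  have hNpos : 1 ≤ (2 ^ t * (s * n)) ^ t := Nat.one_le_pow _ _ (by positivity)
  have h' : ((n.factorial : ℕ) : ℝ) ≤ (((⌊X⌋₊ * (2 ^ t * (s * n)) ^ t : ℕ) : ℝ)) ^ (1 - p) *
      (M : ℝ) ^ p := by
    have := (NNReal.coe_le_coe.2 h)
    push_cast at this
    push_cast
    exact this
  have hfpos : (0 : ℝ) < ((n.factorial : ℕ) : ℝ) := by
    exact_mod_cast Nat.factorial_pos n
  -- lower bound for n!
  have hfl : n * Real.log n - n ≤ Real.log ((n.factorial : ℕ) : ℝ) := by
    have hn0 : (0 : ℝ) < n := by exact_mod_cast hn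
    have h5 := Real.pow_div_factorial_le_exp (n : ℝ) hn0.le n
    rw [div_le_iff₀ hfpos] at h5
    have h6 := Real.log_le_log (pow_pos hn0 n) h5
    rw [Real.log_pow, Real.log_mul (Real.exp_pos _).ne' hfpos.ne', Real.log_exp] at h6
    linarith
  have hk0 : (0 : ℝ) < (k : ℝ) + 1 := by positivity
  have hXpos : 0 < X := by positivity
  have hlogX : Real.log X = (n + (t + 1)) * Real.log (k + 1) - n := by
    rw [hX, Real.log_mul (by positivity) (Real.exp_pos _).ne', Real.log_exp, Real.log_pow]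
    push_cast
    ring
  have hs0 : (0 : ℝ) < s := by exact_mod_cast hs
  have hn0 : (0 : ℝ) < n := by exact_mod_cast hn
  have hlogN : Real.log (((2 ^ t * (s * n)) ^ t : ℕ) : ℝ) ≤
      t * (t * Real.log 2 + Real.log s + Real.log n) := by
    push_cast
    rw [Real.log_pow, Real.log_mul (by positivity) (by positivity), Real.log_pow,
      Real.log_mul hs0.ne' hn0.ne']
    apply le_of_eq
    ring
  have hprodpos : (0 : ℝ) < ((⌊X⌋₊ * (2 ^ t * (s * n)) ^ t : ℕ) : ℝ) := by
    exact_mod_cast Nat.mul_pos hflpos hNpos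
  have h9 := Real.log_le_log hfpos h'
  rw [Real.log_mul (Real.rpow_pos_of_pos hprodpos _).ne' (Real.rpow_pos_of_pos hMpos _).ne',
    Real.log_rpow hprodpos, Real.log_rpow hMpos] at h9
  have h10 : Real.log ((⌊X⌋₊ * (2 ^ t * (s * n)) ^ t : ℕ) : ℝ) ≤
      (n + (t + 1)) * Real.log (k + 1) - n + t * (t * Real.log 2 + Real.log s + Real.log n) := by
    rw [Nat.cast_mul, Real.log_mul (by exact_mod_cast (Nat.pos_iff_ne_zero.1 hflpos))
      (by exact_mod_cast (Nat.pos_iff_ne_zero.1 hNpos))]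
    have h11 : Real.log (⌊X⌋₊ : ℝ) ≤ Real.log X :=
      Real.log_le_log (by exact_mod_cast hflpos) (Nat.floor_le hXpos.le)
    rw [hlogX] at h11
    linarith
  have h12 := mul_le_mul_of_nonneg_left h10 (by linarith : 0 ≤ 1 - p)
  linarith

theorem core_sharp {ε : ℝ} (hε : 0 < ε) (hε1 : ε ≤ 1) :
    ∃ c : ℝ, 0 < c ∧ ∃ n0 : ℕ, ∀ n : ℕ, n0 ≤ n → ∀ s : ℕ, 1 ≤ s → (s : ℝ) ≤ Real.exp (c * n) →
      ∀ f : Pol n, Decs n s f → (∀ σ, 1 ≤ f.coeff (pmono σ)) →
      n * Real.log n - ε * n ≤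
        Real.log ((eval (fun _ => (1 : ℝ≥0)) f : ℝ≥0) : ℝ) := by
  obtain ⟨t, p, hp, hp1, hlam1, hSL, hmain⟩ := exists_sl (half_pos hε) (by linarith)
  set c : ℝ := ε / (8 * (t + 1)) with hc
  have hc0 : 0 < c := by positivity
  set δ : ℝ := ε / (8 * (2 * t + 1)) with hδ
  have hδ0 : 0 < δ := by positivity
  have hev : ∀ᶠ n : ℕ in Filter.atTop, Real.log n ≤ δ * n := by
    have h1 := Real.isLittleO_log_id_atTop.def hδ0
    have h2 := (tendsto_natCast_atTop_atTop (R := ℝ)).eventually h1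
    filter_upwards [h2] with n hn
    simp only [id, Real.norm_eq_abs] at hn
    rw [abs_of_nonneg (a := (n : ℝ)) (Nat.cast_nonneg n)] at hn
    exact le_trans (le_abs_self _) hn
  obtain ⟨n1, hn1⟩ := Filter.eventually_atTop.1 hev
  obtain ⟨n2, hn2⟩ := exists_nat_ge ((8 / ε) * ((t + 2) + (t + 1) + t ^ 2))
  refine ⟨c, hc0, max (max n1 n2) 1, ?_⟩
  intro n hn s hs1 hs f hf hcoeff
  have hnn1 : n1 ≤ n := le_trans (le_trans (le_max_left _ _) (le_max_left _ _)) hn
  have hnn2 : n2 ≤ n := le_trans (le_trans (le_max_right _ _) (le_max_left _ _)) hn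
  have hn1' : 1 ≤ n := le_trans (le_max_right _ _) hn
  have hn0 : (0 : ℝ) < n := by exact_mod_cast hn1'
  set k : ℕ := (2 * n + (t + 1)) / (t + 2) with hk
  have hdm := Nat.div_add_mod (2 * n + (t + 1)) (t + 2)
  have hml := Nat.mod_lt (2 * n + (t + 1)) (by omega : 0 < t + 2)
  rw [← hk] at hdm
  have hk2 : 2 * n ≤ (t + 2) * k := by omega
  have hk1 : 1 ≤ k := by
    rcases Nat.eq_zero_or_pos k with h0 | h0
    · rw [h0, Nat.mul_zero] at hk2
      omega
    · exact h0
  have hk3 : (t + 2) * k ≤ 2 * n + (t + 1) := by omega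
  have hkn : k ≤ n := by
    by_contra hcon
    have h1 : n + 1 ≤ k := by omega
    have h2 : (t + 2) * (n + 1) ≤ (t + 2) * k := Nat.mul_le_mul_left _ h1
    have h3 : (t + 2) * (n + 1) = t * n + t + 2 * n + 2 := by ring
    omega
  have h := core_log hn1' hs1 hk1 hk2 hp hp1.le hSL hf hcoeff
  set M : ℝ := Real.log ((eval (fun _ => (1 : ℝ≥0)) f : ℝ≥0) : ℝ) with hM
  -- bounds for the logarithm of k + 1
  have hk3' : ((t : ℝ) + 2) * k ≤ 2 * n + (t + 1) := by exact_mod_cast hk3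
  have hlk1 : n * Real.log (k + 1) ≤ n * Real.log n - n * Real.log (((t : ℝ) + 2) / 2) + (t + 2) := by
    have h1 : (k : ℝ) + 1 ≤ (n / (((t : ℝ) + 2) / 2)) * (1 + (t + 2) / n) := by
      rw [div_mul_eq_mul_div, le_div_iff₀ (by positivity)]
      have : (n : ℝ) * (1 + (t + 2) / n) = n + (t + 2) := by field_simp
      rw [this]
      nlinarith
    have h2 := Real.log_le_log (by positivity) h1
    rw [Real.log_mul (by positivity) (by positivity), Real.log_div hn0.ne' (by positivity)] at h2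
    have h3 : Real.log (1 + (t + 2) / n) ≤ (t + 2) / n := by
      have := Real.log_le_sub_one_of_pos (by positivity : (0 : ℝ) < 1 + (t + 2) / n)
      linarith
    have h4 : n * (((t : ℝ) + 2) / n) = t + 2 := by field_simp
    nlinarith
  have hlog2 : Real.log 2 ≤ 1 := by
    have := Real.log_two_lt_d9
    linarith
  have hlogn0 : 0 ≤ Real.log n := Real.log_nonneg (by exact_mod_cast hn1')
  have hlk2 : Real.log (k + 1) ≤ 1 + Real.log n := by
    have h1 : (k : ℝ) + 1 ≤ 2 * n := by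
      have : (k : ℝ) ≤ n := by exact_mod_cast hkn
      have : (1 : ℝ) ≤ n := by exact_mod_cast hn1'
      linarith
    have h2 := Real.log_le_log (by positivity) h1
    rw [Real.log_mul (by norm_num) hn0.ne'] at h2
    linarith
  have hls : Real.log s ≤ c * n := by
    have hs0 : (0 : ℝ) < s := by exact_mod_cast hs1
    rw [Real.log_le_iff_le_exp hs0]
    exact hs
  have ht0 : (0 : ℝ) ≤ t := Nat.cast_nonneg t
  -- the error term
  set R : ℝ := (t + 2) + (t + 1) * (1 + Real.log n) + t * (t + c * n + Real.log n) with hR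
  have hRle : R ≤ (ε / 2) * n := by
    have h1 := hn1 n hnn1
    have h2 : (8 / ε) * (((t : ℝ) + 2) + (t + 1) + t ^ 2) ≤ n :=
      le_trans hn2 (by exact_mod_cast hnn2)
    rw [div_mul_eq_mul_div, div_le_iff₀ hε] at h2
    have h3 : t * (c * n) ≤ (ε / 8) * n := by
      have : (t : ℝ) * c ≤ ε / 8 := by
        rw [hc, mul_div_assoc', div_le_div_iff₀ (by positivity) (by norm_num)]
        nlinarith
      nlinarith
    have h4 : (2 * t + 1) * Real.log n ≤ (ε / 8) * n := by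
      calc (2 * t + 1) * Real.log n ≤ (2 * t + 1) * (δ * n) :=
            mul_le_mul_of_nonneg_left h1 (by positivity)
        _ = (ε / 8) * n := by rw [hδ]; field_simp
    rw [hR]
    nlinarith
  have hR0 : 0 ≤ R := by
    rw [hR]
    positivity
  -- combine
  have h1 : (n + ((t : ℝ) + 1)) * Real.log (k + 1) - n +
      t * (t * Real.log 2 + Real.log s + Real.log n) ≤
      n * Real.log n - n - n * Real.log (((t : ℝ) + 2) / 2) + R := by
    have h2 : ((t : ℝ) + 1) * Real.log (k + 1) ≤ (t + 1) * (1 + Real.log n) :=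
      mul_le_mul_of_nonneg_left hlk2 (by positivity)
    have h3 : (t : ℝ) * (t * Real.log 2 + Real.log s + Real.log n) ≤
        t * (t + c * n + Real.log n) := by
      apply mul_le_mul_of_nonneg_left _ ht0
      nlinarith
    rw [hR]
    linarith
  have h2 := mul_le_mul_of_nonneg_left h1 (by linarith : 0 ≤ 1 - p)
  have h3 : n * Real.log n - n ≤ (1 - p) * (n * Real.log n - n -
      n * Real.log (((t : ℝ) + 2) / 2) + R) + p * M := by linarith
  set lam : ℝ := (1 - p) / p with hlam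
  have hlp : 1 - p = lam * p := by rw [hlam, div_mul_cancel₀ _ hp.ne']
  rw [hlp] at h3
  have hlam0 : 0 ≤ lam := div_nonneg (by linarith) hp.le
  -- divide by p
  have h4 : n * Real.log n - n + lam * (n * Real.log (((t : ℝ) + 2) / 2) - R) ≤ M := by
    have h5 : p * (n * Real.log n - n + lam * (n * Real.log (((t : ℝ) + 2) / 2) - R)) ≤ p * M := by
      have h6 : 1 - lam * p = p := by linarith
      have h7 : (n * Real.log n - n) * (1 - lam * p) = (n * Real.log n - n) * p := by rw [h6]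
      linarith
    exact le_of_mul_le_mul_left h5 hp
  have h5 : lam * R ≤ R := by nlinarith
  have h6 : (1 - ε / 2) * n ≤ lam * Real.log (((t : ℝ) + 2) / 2) * n :=
    mul_le_mul_of_nonneg_right hmain hn0.le
  nlinarith

end Pool.Agent.J4H60.PM
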