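import Pool.Agent.J4H60.PM.Tensor

set_option autoImplicit false

namespace Pool.Agent.J4H60.PM

open Finset
open scoped NNReal

theorem conc {ι : Type*} (s : Finset ι) (x : ι → ℝ≥0) {p : ℝ} (hp : 0 < p) (hp1 : p ≤ 1) :
    ∑ i ∈ s, x i ^ p ≤ (s.card : ℝ≥0) ^ (1 - p) * (∑ i ∈ s, x i) ^ p := by
  have h1 : (1 : ℝ) ≤ 1 / p := by
    rw [le_div_iff₀ hp]; linarith
  have h := NNReal.rpow_sum_le_const_mul_sum_rpow s (fun i => x i ^ p) h1
  have h2 : ∀ i, (x i ^ p) ^ (1 / p) = x i := by
    intro i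
    rw [← NNReal.rpow_mul, mul_one_div_cancel hp.ne', NNReal.rpow_one]
  simp only [h2] at h
  have h3 := NNReal.rpow_le_rpow h hp.le
  rw [← NNReal.rpow_mul, one_div_mul_cancel hp.ne', NNReal.rpow_one, NNReal.mul_rpow,
    ← NNReal.rpow_mul] at h3
  have h4 : (1 / p - 1) * p = 1 - p := by field_simp
  rwa [h4] at h3

theorem subadd {ι : Type*} (s : Finset ι) (x : ι → ℝ≥0) {p : ℝ} (hp : 0 < p) (hp1 : p ≤ 1) :
    (∑ i ∈ s, x i) ^ p ≤ ∑ i ∈ s, x i ^ p := by
  classical
  induction s using Finset.induction_on with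
  | empty => simp [NNReal.zero_rpow hp.ne']
  | insert a s ha ih =>
    rw [Finset.sum_insert ha, Finset.sum_insert ha]
    exact le_trans (NNReal.rpow_add_le_add_rpow _ _ hp.le hp1) (add_le_add le_rfl ih)

/-- the monomial of the restriction of `σ` to `{y = true}` -/
noncomputable def mono {n : ℕ} (σ : Equiv.Perm (Fin n)) (y : Fin n → Bool) :
    (Fin n × Fin n) →₀ ℕ :=
  ∑ i ∈ univ.filter (fun i => y i = true), Finsupp.single (i, σ i) 1

theorem mono_apply {n : ℕ} (σ : Equiv.Perm (Fin n)) (y : Fin n → Bool) (i j : Fin n) :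
    mono σ y (i, j) = if y i = true ∧ σ i = j then 1 else 0 := by
  unfold mono
  rw [Finsupp.finsetSum_apply]
  by_cases h : y i = true ∧ σ i = j
  · rw [if_pos h, Finset.sum_eq_single i]
    · rw [h.2]; simp
    · intro b _ hb
      rw [Finsupp.single_apply, if_neg]
      intro hh
      exact hb (Prod.ext_iff.1 hh).1
    · intro hh
      exfalso
      apply hh
      rw [Finset.mem_filter]
      exact ⟨Finset.mem_univ _, h.1⟩
  · rw [if_neg h]
    apply Finset.sum_eq_zero
    intro b hb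
    rw [Finsupp.single_apply, if_neg]
    intro hh
    have h1 := (Prod.ext_iff.1 hh).1
    have h2 := (Prod.ext_iff.1 hh).2
    simp only at h1 h2
    subst h1
    exact h ⟨(Finset.mem_filter.1 hb).2, h2⟩

/-- the monomial of `σ` -/
noncomputable def pmono {n : ℕ} (σ : Equiv.Perm (Fin n)) : (Fin n × Fin n) →₀ ℕ :=
  mono σ (fun _ => true)

theorem pmono_apply {n : ℕ} (σ : Equiv.Perm (Fin n)) (i j : Fin n) :
    pmono σ (i, j) = if σ i = j then 1 else 0 := by
  unfold pmono
  rw [mono_apply]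
  simp

abbrev Pol (n : ℕ) := MvPolynomial (Fin n × Fin n) ℝ≥0

theorem coeff_prod_le {n t : ℕ} (P : Fin t → Pol n) (σ : Equiv.Perm (Fin n)) :
    (∏ j, P j).coeff (pmono σ) ≤
      ∑ w : Fin n → Fin t, ∏ j, (P j).coeff (mono σ (fun i => decide (w i = j))) := by
  classical
  have h1 : (∏ j, P j).coeff (pmono σ) =
      ∑ l ∈ finsuppAntidiag univ (pmono σ), ∏ i, (P i).coeff (l i) := by
    rw [← MvPolynomial.coeff_coe]
    have : ((∏ j, P j : Pol n) : MvPowerSeries (Fin n × Fin n) ℝ≥0) =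
        ∏ j, (P j : MvPowerSeries (Fin n × Fin n) ℝ≥0) := by
      exact map_prod (MvPolynomial.coeToMvPowerSeries.ringHom
        (σ := Fin n × Fin n) (R := ℝ≥0)) P univ
    rw [this, MvPowerSeries.coeff_prod]
    rfl
  rw [h1]
  -- the word of a decomposition
  have key : ∀ l ∈ finsuppAntidiag (univ : Finset (Fin t)) (pmono σ),
      ∀ i : Fin n, ∃ j : Fin t, (l j) (i, σ i) = 1 ∧ ∀ j', j' ≠ j → (l j') (i, σ i) = 0 := by
    intro l hl i
    rw [mem_finsuppAntidiag] at hl
    have h2 : ∑ j, (l j) (i, σ i) = 1 := by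
      have := DFunLike.congr_fun hl.1 (i, σ i)
      rw [Finsupp.finsetSum_apply] at this
      rw [this, pmono_apply, if_pos rfl]
    have h3 : ∃ j ∈ (univ : Finset (Fin t)), (l j) (i, σ i) ≠ 0 := by
      by_contra hcon
      push Not at hcon
      rw [Finset.sum_eq_zero hcon] at h2
      omega
    obtain ⟨j, _, hj⟩ := h3
    have h4 : (l j) (i, σ i) + ∑ j' ∈ univ.erase j, (l j') (i, σ i) = 1 := by
      rw [Finset.add_sum_erase univ (fun j => (l j) (i, σ i)) (Finset.mem_univ j)]
      exact h2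
    refine ⟨j, by omega, ?_⟩
    intro j' hj'
    have h5 : (l j') (i, σ i) ≤ ∑ j' ∈ univ.erase j, (l j') (i, σ i) :=
      Finset.single_le_sum (f := fun j' => (l j') (i, σ i)) (fun _ _ => Nat.zero_le _)
        (Finset.mem_erase.2 ⟨hj', Finset.mem_univ _⟩)
    omega
  have key2 : ∀ l ∈ finsuppAntidiag (univ : Finset (Fin t)) (pmono σ),
      ∀ i j : Fin n, σ i ≠ j → ∀ k : Fin t, (l k) (i, j) = 0 := by
    intro l hl i j hij k
    rw [mem_finsuppAntidiag] at hl
    have h2 : ∑ k, (l k) (i, j) = 0 := by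
      have := DFunLike.congr_fun hl.1 (i, j)
      rw [Finsupp.finsetSum_apply] at this
      rw [this, pmono_apply, if_neg hij]
    exact (Finset.sum_eq_zero_iff.1 h2) k (Finset.mem_univ _)
  choose W hW1 hW2 using key
  have hl : ∀ (l : Fin t →₀ (Fin n × Fin n →₀ ℕ))
      (hm : l ∈ finsuppAntidiag (univ : Finset (Fin t)) (pmono σ)) (k : Fin t),
      l k = mono σ (fun i => decide (W l hm i = k)) := by
    intro l hm k
    ext ⟨i, j⟩
    rw [mono_apply]
    by_cases hij : σ i = j
    · subst hij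
      by_cases hk : W l hm i = k
      · subst hk
        rw [if_pos ⟨by simp, rfl⟩, hW1 l hm i]
      · rw [if_neg, hW2 l hm i k (fun h => hk h.symm)]
        simp [hk]
    · rw [key2 l hm i j hij k, if_neg]
      exact fun h => hij h.2
  calc ∑ l ∈ finsuppAntidiag univ (pmono σ), ∏ i, (P i).coeff (l i)
      = ∑ l ∈ (finsuppAntidiag univ (pmono σ)).attach, ∏ i, (P i).coeff (l.1 i) := by
        rw [← Finset.sum_attach]
    _ = ∑ l ∈ (finsuppAntidiag univ (pmono σ)).attach,
          ∏ j, (P j).coeff (mono σ (fun i => decide (W l.1 l.2 i = j))) := by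
        apply Finset.sum_congr rfl
        intro l _
        apply Finset.prod_congr rfl
        intro j _
        rw [← hl l.1 l.2 j]
    _ = ∑ w ∈ (finsuppAntidiag univ (pmono σ)).attach.image (fun l => W l.1 l.2),
          ∏ j, (P j).coeff (mono σ (fun i => decide (w i = j))) := by
        rw [Finset.sum_image]
        intro l1 _ l2 _ h12
        apply Subtype.ext
        ext1 k
        rw [hl l1.1 l1.2 k, hl l2.1 l2.2 k]
        simp only at h12
        rw [h12]
    _ ≤ _ := Finset.sum_le_sum_of_subset (Finset.subset_univ _)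

end Pool.Agent.J4H60.PM
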