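import Pool.Agent.J4H60.PM.Tensor

set_option autoImplicit false

namespace Pool.Agent.J4H60.PM

open Finset
open scoped NNReal

/-- two letters -/
theorem sl_two : SL 2 (1 / 2) := by
  intro a b
  have hs : ∀ x : ℝ≥0, x ^ (1 / 2 : ℝ) = NNReal.sqrt x := by
    intro x
    rw [NNReal.sqrt_eq_rpow]
  simp only [hs]
  have e0 : (univ : Finset (Fin 2)).erase 0 = {1} := by decide
  have e1 : (univ : Finset (Fin 2)).erase 1 = {0} := by decide
  rw [Fin.sum_univ_two, Fin.prod_univ_two, e0, e1, Finset.prod_singleton, Finset.prod_singleton]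
  rw [← NNReal.sqrt_mul, ← NNReal.sqrt_mul, ← NNReal.sqrt_mul]
  rw [← NNReal.coe_le_coe]
  push_cast
  set a0 : ℝ := (a 0 : ℝ)
  set a1 : ℝ := (a 1 : ℝ)
  set b0 : ℝ := (b 0 : ℝ)
  set b1 : ℝ := (b 1 : ℝ)
  have h1 : 0 ≤ a0 := (a 0).2
  have h2 : 0 ≤ a1 := (a 1).2
  have h3 : 0 ≤ b0 := (b 0).2
  have h4 : 0 ≤ b1 := (b 1).2
  apply Real.le_sqrt_of_sq_le
  have h5 : Real.sqrt (b0 * a1) ^ 2 = b0 * a1 := Real.sq_sqrt (mul_nonneg h3 h2)
  have h6 : Real.sqrt (b1 * a0) ^ 2 = b1 * a0 := Real.sq_sqrt (mul_nonneg h4 h1)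
  have h7 : Real.sqrt (b0 * a1) * Real.sqrt (b1 * a0) =
      Real.sqrt (a0 * a1) * Real.sqrt (b0 * b1) := by
    rw [← Real.sqrt_mul (mul_nonneg h3 h2), ← Real.sqrt_mul (mul_nonneg h1 h2)]
    congr 1
    ring
  have h8 : Real.sqrt (a0 * a1) ^ 2 = a0 * a1 := Real.sq_sqrt (mul_nonneg h1 h2)
  have h9 : Real.sqrt (b0 * b1) ^ 2 = b0 * b1 := Real.sq_sqrt (mul_nonneg h3 h4)
  nlinarith [sq_nonneg (Real.sqrt (a0 * a1) - Real.sqrt (b0 * b1))]

/-- probability-like expression -/
noncomputable def S {ι : Type*} [DecidableEq ι] (p : ℝ) (x : ι → ℝ) (s : Finset ι) : ℝ :=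
  ∑ i ∈ s, x i ^ p * ∏ j ∈ s.erase i, (1 - x j) ^ p

theorem S_erase {ι : Type*} [DecidableEq ι] (p : ℝ) (x : ι → ℝ) (s : Finset ι) {i0 : ι}
    (h : i0 ∈ s) : S p x s = x i0 ^ p * ∏ j ∈ s.erase i0, (1 - x j) ^ p +
      (1 - x i0) ^ p * S p x (s.erase i0) := by
  unfold S
  rw [← Finset.add_sum_erase s _ h, Finset.mul_sum]
  congr 1
  apply Finset.sum_congr rfl
  intro i hi
  have hi' := Finset.mem_erase.1 hi
  have h1 : i0 ∈ s.erase i := Finset.mem_erase.2 ⟨fun hh => hi'.1 hh.symm, h⟩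
  rw [← Finset.mul_prod_erase (s.erase i) _ h1]
  have h2 : (s.erase i).erase i0 = (s.erase i0).erase i := Finset.erase_right_comm
  rw [h2]
  ring

theorem rpow_le_add {y p : ℝ} (hy : 0 ≤ y) (hp : 0 ≤ p) (hp1 : p ≤ 1) :
    y ^ p ≤ p * y + (1 - p) := by
  have := Real.geom_mean_le_arith_mean2_weighted hp (by linarith : 0 ≤ 1 - p) hy zero_le_one
    (by ring)
  rw [Real.one_rpow, mul_one, mul_one] at this
  exact this

/-- the calculus inequality -/
theorem calc_ineq {a ν e' : ℝ} (ha : 0 ≤ a) (hν : 3 ≤ ν) (he : 0 < e')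
    (h : 1 ≤ Real.exp (ν / Real.exp 1) * (1 - Real.exp (-(e' * ν)))) :
    1 + (Real.exp (1 - e') * a) ^ ν ≤ Real.exp (ν * a) := by
  have hc0 : 0 < Real.exp (1 - e') := Real.exp_pos _
  have hce : Real.exp (1 - e') ≤ Real.exp 1 := Real.exp_le_exp.2 (by linarith)
  have hca : 0 ≤ Real.exp (1 - e') * a := mul_nonneg hc0.le ha
  by_cases h1 : Real.exp (1 - e') * a ≤ 1
  · have h2 : (Real.exp (1 - e') * a) ^ ν ≤ (Real.exp (1 - e') * a) ^ (1 : ℝ) := by
      rcases hca.eq_or_lt with h0 | h0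
      · rw [← h0, Real.zero_rpow (by linarith), Real.rpow_one]
      · exact Real.rpow_le_rpow_of_exponent_ge h0 h1 (by linarith)
    rw [Real.rpow_one] at h2
    have h3 : Real.exp 1 < 3 := by
      have := Real.exp_one_lt_d9
      linarith
    have h4 : Real.exp (1 - e') * a ≤ ν * a := mul_le_mul_of_nonneg_right (by linarith) ha
    have h5 := Real.add_one_le_exp (ν * a)
    linarith
  · push Not at h1
    have ha' : 1 / Real.exp 1 ≤ a := by
      rw [div_le_iff₀ (Real.exp_pos 1)]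
      have : Real.exp (1 - e') * a ≤ Real.exp 1 * a := mul_le_mul_of_nonneg_right hce ha
      linarith [mul_comm a (Real.exp 1)]
    have h2 : Real.exp (1 - e') * a ≤ Real.exp (-e') * Real.exp a := by
      have h3 := Real.add_one_le_exp (a - 1)
      have h4 : Real.exp (1 - e') = Real.exp (-e') * Real.exp 1 := by
        rw [← Real.exp_add]; congr 1; ring
      have h5 : Real.exp a = Real.exp 1 * Real.exp (a - 1) := by
        rw [← Real.exp_add]; congr 1; ring
      rw [h4, h5, mul_assoc]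
      apply mul_le_mul_of_nonneg_left _ (Real.exp_pos _).le
      apply mul_le_mul_of_nonneg_left _ (Real.exp_pos _).le
      linarith
    have h3 : (Real.exp (1 - e') * a) ^ ν ≤ Real.exp (-(e' * ν)) * Real.exp (ν * a) := by
      calc (Real.exp (1 - e') * a) ^ ν ≤ (Real.exp (-e') * Real.exp a) ^ ν :=
            Real.rpow_le_rpow hca h2 (by linarith)
        _ = Real.exp (-(e' * ν)) * Real.exp (ν * a) := by
            rw [← Real.exp_add, ← Real.exp_mul, ← Real.exp_add]
            congr 1; ring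
    have h4 : Real.exp (ν / Real.exp 1) ≤ Real.exp (ν * a) := by
      apply Real.exp_le_exp.2
      rw [div_eq_mul_one_div]
      exact mul_le_mul_of_nonneg_left ha' (by linarith)
    have h5 : 0 < 1 - Real.exp (-(e' * ν)) := by
      have : Real.exp (-(e' * ν)) < 1 := by
        rw [Real.exp_lt_one_iff]
        have : 0 < e' * ν := mul_pos he (by linarith)
        linarith
      linarith
    nlinarith [mul_le_mul_of_nonneg_right h4 h5.le]

theorem conc_real {ι : Type*} (s : Finset ι) (x : ι → ℝ) (hx : ∀ i ∈ s, 0 ≤ x i) {p : ℝ}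
    (hp : 0 < p) (hp1 : p ≤ 1) :
    ∑ i ∈ s, x i ^ p ≤ (s.card : ℝ) ^ (1 - p) * (∑ i ∈ s, x i) ^ p := by
  have h1 : (1 : ℝ) ≤ 1 / p := by
    rw [le_div_iff₀ hp]; linarith
  have h := Real.rpow_sum_le_const_mul_sum_rpow_of_nonneg (s := s) (f := fun i => x i ^ p) h1
    (fun i hi => Real.rpow_nonneg (hx i hi) p)
  have h2 : ∑ i ∈ s, (x i ^ p) ^ (1 / p) = ∑ i ∈ s, x i := by
    apply Finset.sum_congr rfl
    intro i hi
    rw [← Real.rpow_mul (hx i hi), mul_one_div_cancel hp.ne', Real.rpow_one]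
  rw [h2] at h
  have hs0 : 0 ≤ ∑ i ∈ s, x i ^ p := Finset.sum_nonneg fun i hi => Real.rpow_nonneg (hx i hi) p
  have hs1 : 0 ≤ ∑ i ∈ s, x i := Finset.sum_nonneg hx
  have h3 := Real.rpow_le_rpow (Real.rpow_nonneg hs0 _) h hp.le
  rw [← Real.rpow_mul hs0, one_div_mul_cancel hp.ne', Real.rpow_one,
    Real.mul_rpow (Real.rpow_nonneg (Nat.cast_nonneg _) _) hs1,
    ← Real.rpow_mul (Nat.cast_nonneg _)] at h3
  have h4 : (1 / p - 1) * p = 1 - p := by field_simp
  rwa [h4] at h3

theorem S_le_one {ι : Type*} [DecidableEq ι] {t : ℕ} {p ξ e' : ℝ} (hp : 0 < p) (hp1 : p < 1)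
    (hξ : 0 < ξ) (hξ1 : ξ < 1) (h2 : 2 * (1 - p) ≤ ξ ^ 2) (he : 0 < e')
    (hK : (t : ℝ) ^ ((1 - p) / p) ≤ (1 - ξ) * Real.exp (1 - e'))
    (hν : 3 ≤ p / (1 - p))
    (hexp : 1 ≤ Real.exp (p / (1 - p) / Real.exp 1) * (1 - Real.exp (-(e' * (p / (1 - p))))))
    (x : ι → ℝ) (hx0 : ∀ i, 0 ≤ x i) (hx1 : ∀ i, x i ≤ 1) :
    ∀ (m : ℕ) (s : Finset ι), s.card = m → m ≤ t → S p x s ≤ 1 := by
  have hp1' : 0 < 1 - p := by linarith
  intro m
  induction m with
  | zero =>
    intro s hs _
    rw [Finset.card_eq_zero] at hs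
    subst hs
    simp [S]
  | succ m ih =>
    intro s hs hmt
    have hne : s.Nonempty := Finset.card_pos.1 (by omega)
    obtain ⟨i0, hi0, hmax⟩ := Finset.exists_max_image s x hne
    have hcard : (s.erase i0).card = m := by
      rw [Finset.card_erase_of_mem hi0]; omega
    have hIH := ih (s.erase i0) hcard (by omega)
    rw [S_erase p x s hi0]
    set W : ℝ := ∏ j ∈ s.erase i0, (1 - x j) with hW
    have hWp : ∏ j ∈ s.erase i0, (1 - x j) ^ p = W ^ p := by
      rw [hW, Real.finsetProd_rpow _ _ (fun j _ => by linarith [hx1 j])]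
    rw [hWp]
    have hW0 : 0 ≤ W := Finset.prod_nonneg fun j _ => by linarith [hx1 j]
    have hx0' := hx0 i0
    have hx1' := hx1 i0
    by_cases hbig : ∃ j ∈ s.erase i0, ξ < x j
    · obtain ⟨j, hj, hjξ⟩ := hbig
      have hj' := Finset.mem_erase.1 hj
      have h3 : ξ < x i0 := lt_of_lt_of_le hjξ (hmax j hj'.2)
      have hW1 : W ≤ 1 - ξ := by
        rw [hW, ← Finset.mul_prod_erase _ _ hj]
        have h4 : ∏ k ∈ (s.erase i0).erase j, (1 - x k) ≤ 1 :=
          Finset.prod_le_one (fun k _ => by linarith [hx1 k]) (fun k _ => by linarith [hx0 k])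
        have h5 : 0 ≤ ∏ k ∈ (s.erase i0).erase j, (1 - x k) :=
          Finset.prod_nonneg (fun k _ => by linarith [hx1 k])
        have h6 : 0 ≤ 1 - x j := by linarith [hx1 j]
        nlinarith
      have h7 : x i0 ^ p * W ^ p ≤ x i0 * (1 - ξ) + (1 - p) := by
        rw [← Real.mul_rpow hx0' hW0]
        have h8 : (x i0 * W) ^ p ≤ (x i0 * (1 - ξ)) ^ p :=
          Real.rpow_le_rpow (mul_nonneg hx0' hW0) (mul_le_mul_of_nonneg_left hW1 hx0') hp.le
        have h9 : 0 ≤ x i0 * (1 - ξ) := mul_nonneg hx0' (by linarith)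
        have h10 := rpow_le_add h9 hp.le hp1.le
        nlinarith
      have h11 : (1 - x i0) ^ p * S p x (s.erase i0) ≤ (1 - x i0) + (1 - p) := by
        have h12 : 0 ≤ 1 - x i0 := by linarith
        have h13 := rpow_le_add h12 hp.le hp1.le
        have h14 : 0 ≤ (1 - x i0) ^ p := Real.rpow_nonneg h12 _
        nlinarith
      nlinarith
    · push Not at hbig
      have hWpos : 0 < W := Finset.prod_pos fun j hj => by linarith [hbig j hj]
      set a : ℝ := - Real.log W with ha
      have hWa : W = Real.exp (-a) := by rw [ha, neg_neg, Real.exp_log hWpos]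
      have hW1 : W ≤ 1 := Finset.prod_le_one (fun k _ => by linarith [hx1 k])
        (fun k _ => by linarith [hx0 k])
      have ha0 : 0 ≤ a := by
        have := Real.log_nonpos hW0 hW1
        linarith
      have h3 : ∑ i ∈ s.erase i0, x i / (1 - x i) ≤ a / (1 - ξ) := by
        rw [le_div_iff₀ (by linarith), Finset.sum_mul, ha, hW,
          Real.log_prod (fun j hj => by linarith [hbig j hj]), ← Finset.sum_neg_distrib]
        apply Finset.sum_le_sum
        intro i hi
        have h4 := hbig i hi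
        have h5 : 0 < 1 - x i := by linarith
        have h6 := Real.log_le_sub_one_of_pos h5
        have h7 : x i / (1 - x i) * (1 - ξ) ≤ x i := by
          rw [div_mul_eq_mul_div, div_le_iff₀ h5]
          exact mul_le_mul_of_nonneg_left (by linarith) (hx0 i)
        linarith
      have h4 : S p x (s.erase i0) ≤
          (t : ℝ) ^ (1 - p) * (W * (a / (1 - ξ))) ^ p := by
        have h5 : S p x (s.erase i0) =
            ∑ i ∈ s.erase i0, (x i * ∏ j ∈ (s.erase i0).erase i, (1 - x j)) ^ p := by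
          unfold S
          apply Finset.sum_congr rfl
          intro i _
          rw [Real.mul_rpow (hx0 i) (Finset.prod_nonneg fun j _ => by linarith [hx1 j]),
            Real.finsetProd_rpow _ _ (fun j _ => by linarith [hx1 j])]
        have h6 : ∀ i ∈ s.erase i0, x i * ∏ j ∈ (s.erase i0).erase i, (1 - x j) =
            W * (x i / (1 - x i)) := by
          intro i hi
          have h7 : 0 < 1 - x i := by linarith [hbig i hi]
          rw [hW, ← Finset.mul_prod_erase _ _ hi]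
          field_simp
        have h7 := conc_real (s.erase i0)
          (fun i => x i * ∏ j ∈ (s.erase i0).erase i, (1 - x j))
          (fun i _ => mul_nonneg (hx0 i) (Finset.prod_nonneg fun j _ => by linarith [hx1 j]))
          hp hp1.le
        rw [h5]
        refine le_trans h7 ?_
        rw [Finset.sum_congr rfl h6, ← Finset.mul_sum]
        have h8 : 0 ≤ ∑ i ∈ s.erase i0, x i / (1 - x i) :=
          Finset.sum_nonneg fun i hi => div_nonneg (hx0 i) (by linarith [hbig i hi])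
        apply mul_le_mul
        · apply Real.rpow_le_rpow (Nat.cast_nonneg _) _ hp1'.le
          rw [hcard]
          exact_mod_cast (by omega : m ≤ t)
        · apply Real.rpow_le_rpow (mul_nonneg hW0 h8) _ hp.le
          exact mul_le_mul_of_nonneg_left h3 hW0
        · exact Real.rpow_nonneg (mul_nonneg hW0 h8) _
        · exact Real.rpow_nonneg (Nat.cast_nonneg _) _
      set γ : ℝ := Real.exp (1 - e') * a with hγ
      have hγ0 : 0 ≤ γ := mul_nonneg (Real.exp_pos _).le ha0
      have h5 : (t : ℝ) ^ (1 - p) * (W * (a / (1 - ξ))) ^ p ≤ W ^ p * γ ^ p := by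
        have h6 : (t : ℝ) ^ (1 - p) = ((t : ℝ) ^ ((1 - p) / p)) ^ p := by
          rw [← Real.rpow_mul (Nat.cast_nonneg _), div_mul_cancel₀ _ hp.ne']
        have h7 : 0 ≤ (t : ℝ) ^ ((1 - p) / p) := Real.rpow_nonneg (Nat.cast_nonneg _) _
        have h8 : 0 ≤ a / (1 - ξ) := div_nonneg ha0 (by linarith)
        rw [h6, ← Real.mul_rpow h7 (mul_nonneg hW0 h8), ← Real.mul_rpow hW0 hγ0]
        apply Real.rpow_le_rpow (mul_nonneg h7 (mul_nonneg hW0 h8)) _ hp.le
        have h9 : (t : ℝ) ^ ((1 - p) / p) * (a / (1 - ξ)) ≤ γ := by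
          rw [hγ, mul_div_assoc', div_le_iff₀ (by linarith)]
          calc (t : ℝ) ^ ((1 - p) / p) * a ≤ ((1 - ξ) * Real.exp (1 - e')) * a :=
                mul_le_mul_of_nonneg_right hK ha0
            _ = _ := by ring
        calc (t : ℝ) ^ ((1 - p) / p) * (W * (a / (1 - ξ))) =
              W * ((t : ℝ) ^ ((1 - p) / p) * (a / (1 - ξ))) := by ring
          _ ≤ W * γ := mul_le_mul_of_nonneg_left h9 hW0
      set ν : ℝ := p / (1 - p) with hνd
      have hνp : ν * (1 - p) = p := by rw [hνd]; field_simp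
      set H : ℝ := 1 + γ ^ ν with hH
      have hγν : 0 ≤ γ ^ ν := Real.rpow_nonneg hγ0 _
      have hHpos : 0 < H := by linarith
      have h6 : x i0 ^ p + (1 - x i0) ^ p * γ ^ p ≤ H ^ (1 - p) := by
        have h7 := Real.geom_mean_le_arith_mean2_weighted hp.le hp1'.le hx0'
          (by positivity : 0 ≤ 1 / H) (by ring)
        have h8 := Real.geom_mean_le_arith_mean2_weighted hp.le hp1'.le
          (by linarith : 0 ≤ 1 - x i0) (by positivity : 0 ≤ γ ^ ν / H) (by ring)
        rw [Real.div_rpow zero_le_one hHpos.le, Real.one_rpow] at h7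
        rw [Real.div_rpow hγν hHpos.le, ← Real.rpow_mul hγ0, hνp] at h8
        have h9 : 0 < H ^ (1 - p) := Real.rpow_pos_of_pos hHpos _
        have h10 : x i0 ^ p * (1 / H ^ (1 - p)) + (1 - x i0) ^ p * (γ ^ p / H ^ (1 - p)) ≤ 1 := by
          have h11 : (1 - p) * (1 / H) + (1 - p) * (γ ^ ν / H) = 1 - p := by
            rw [← mul_add, ← add_div, ← hH, div_self hHpos.ne', mul_one]
          nlinarith
        have h12 : x i0 ^ p * (1 / H ^ (1 - p)) + (1 - x i0) ^ p * (γ ^ p / H ^ (1 - p)) =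
            (x i0 ^ p + (1 - x i0) ^ p * γ ^ p) / H ^ (1 - p) := by
          field_simp
        rw [h12, div_le_one h9] at h10
        exact h10
      have h7 : H ≤ Real.exp (ν * a) := calc_ineq ha0 hν he hexp
      have h8 : H ^ (1 - p) ≤ Real.exp (p * a) := by
        calc H ^ (1 - p) ≤ (Real.exp (ν * a)) ^ (1 - p) :=
              Real.rpow_le_rpow hHpos.le h7 hp1'.le
          _ = Real.exp (p * a) := by
              rw [← Real.exp_mul]
              congr 1
              calc ν * a * (1 - p) = (ν * (1 - p)) * a := by ring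
                _ = p * a := by rw [hνp]
      have h9 : W ^ p = Real.exp (-(p * a)) := by
        rw [hWa, ← Real.exp_mul]
        congr 1; ring
      have h10 : 0 ≤ W ^ p := Real.rpow_nonneg hW0 _
      calc x i0 ^ p * W ^ p + (1 - x i0) ^ p * S p x (s.erase i0)
          ≤ x i0 ^ p * W ^ p + (1 - x i0) ^ p * (W ^ p * γ ^ p) := by
            have := mul_le_mul_of_nonneg_left (le_trans h4 h5)
              (Real.rpow_nonneg (by linarith : 0 ≤ 1 - x i0) p)
            linarith
        _ = W ^ p * (x i0 ^ p + (1 - x i0) ^ p * γ ^ p) := by ring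
        _ ≤ W ^ p * Real.exp (p * a) := mul_le_mul_of_nonneg_left (le_trans h6 h8) h10
        _ = 1 := by
            rw [h9, ← Real.exp_add]
            simp

theorem sl_of_conditions {t : ℕ} {p ξ e' : ℝ} (hp : 0 < p) (hp1 : p < 1)
    (hξ : 0 < ξ) (hξ1 : ξ < 1) (h2 : 2 * (1 - p) ≤ ξ ^ 2) (he : 0 < e')
    (hK : (t : ℝ) ^ ((1 - p) / p) ≤ (1 - ξ) * Real.exp (1 - e'))
    (hν : 3 ≤ p / (1 - p))
    (hexp : 1 ≤ Real.exp (p / (1 - p) / Real.exp 1) * (1 - Real.exp (-(e' * (p / (1 - p)))))) :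
    SL t p := by
  intro a b
  by_cases hz : ∃ j, a j + b j = 0
  · obtain ⟨j, hj⟩ := hz
    have haj : a j = 0 := by
      have := add_eq_zero.1 hj
      exact this.1
    have hbj : b j = 0 := by
      have := add_eq_zero.1 hj
      exact this.2
    have : ∑ i, (b i) ^ p * ∏ j ∈ univ.erase i, (a j) ^ p = 0 := by
      apply Finset.sum_eq_zero
      intro i _
      by_cases hij : i = j
      · rw [hij, hbj, NNReal.zero_rpow hp.ne', zero_mul]
      · rw [Finset.prod_eq_zero (Finset.mem_erase.2 ⟨fun h => hij h.symm, Finset.mem_univ j⟩),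
          mul_zero]
        rw [haj, NNReal.zero_rpow hp.ne']
    rw [this]
    exact zero_le
  · push Not at hz
    have hpos : ∀ j, 0 < ((a j + b j : ℝ≥0) : ℝ) := by
      intro j
      exact_mod_cast pos_iff_ne_zero.2 (hz j)
    have h := S_le_one hp hp1 hξ hξ1 h2 he hK hν hexp
      (fun j : Fin t => (b j : ℝ) / ((a j + b j : ℝ≥0) : ℝ))
      (fun j => div_nonneg (b j).2 (hpos j).le)
      (fun j => by
        rw [div_le_one (hpos j)]
        push_cast
        linarith [(a j).2]) t univ (by simp) le_rfl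
    unfold S at h
    rw [← NNReal.coe_le_coe]
    push_cast
    have h3 : ∀ j, 1 - (b j : ℝ) / ((a j + b j : ℝ≥0) : ℝ) = (a j : ℝ) / ((a j + b j : ℝ≥0) : ℝ) := by
      intro j
      rw [eq_div_iff (hpos j).ne', sub_mul, div_mul_cancel₀ _ (hpos j).ne']
      push_cast
      ring
    simp only [h3] at h
    have h4 : ∀ i : Fin t, ((b i : ℝ) / ((a i + b i : ℝ≥0) : ℝ)) ^ p *
        ∏ j ∈ univ.erase i, ((a j : ℝ) / ((a j + b j : ℝ≥0) : ℝ)) ^ p =
        ((b i : ℝ) ^ p * ∏ j ∈ univ.erase i, (a j : ℝ) ^ p) /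
          ∏ j, ((a j : ℝ) + (b j : ℝ)) ^ p := by
      intro i
      rw [← Finset.mul_prod_erase univ (fun j => ((a j : ℝ) + (b j : ℝ)) ^ p) (Finset.mem_univ i)]
      have h5 : ∀ j, ((a j : ℝ) / ((a j + b j : ℝ≥0) : ℝ)) ^ p =
          (a j : ℝ) ^ p / ((a j : ℝ) + (b j : ℝ)) ^ p := by
        intro j
        rw [Real.div_rpow (NNReal.coe_nonneg (a j)) (hpos j).le]
        rw [NNReal.coe_add]
      have h6 : ((b i : ℝ) / ((a i + b i : ℝ≥0) : ℝ)) ^ p =
          (b i : ℝ) ^ p / ((a i : ℝ) + (b i : ℝ)) ^ p := by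
        rw [Real.div_rpow (NNReal.coe_nonneg (b i)) (hpos i).le]
        rw [NNReal.coe_add]
      simp only [h5]
      rw [h6, Finset.prod_div_distrib, div_mul_div_comm]
    rw [Finset.sum_congr rfl (fun i _ => h4 i), ← Finset.sum_div, div_le_one] at h
    · exact h
    · apply Finset.prod_pos
      intro j _
      apply Real.rpow_pos_of_pos
      have := hpos j
      push_cast at this
      exact this

end Pool.Agent.J4H60.PM
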