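import Mathlib

set_option autoImplicit false

namespace Pool.Agent.J4H60.PM

open Finset

section

variable {K V : Type} [Field K] [Fintype V]

/-- scaling of the variables by the variable of the power series ring -/
noncomputable def scale (K V : Type) [Field K] :
    MvPolynomial V K →+* PowerSeries (MvPolynomial V K) :=
  MvPolynomial.eval₂Hom ((PowerSeries.C).comp MvPolynomial.C)
    (fun v => PowerSeries.X * PowerSeries.C (MvPolynomial.X v))

theorem scale_hom {f : MvPolynomial V K} {d : ℕ} (hf : f.IsHomogeneous d) :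
    scale K V f = PowerSeries.X ^ d * PowerSeries.C f := by
  classical
  unfold scale
  rw [MvPolynomial.coe_eval₂Hom, MvPolynomial.eval₂_eq']
  have h1 : ∀ m ∈ f.support, ((PowerSeries.C).comp MvPolynomial.C) (f.coeff m) *
      ∏ v, (PowerSeries.X * PowerSeries.C (MvPolynomial.X v : MvPolynomial V K)) ^ m v =
      PowerSeries.X ^ d * PowerSeries.C (MvPolynomial.monomial m (f.coeff m)) := by
    intro m hm
    have hdeg : ∑ v, m v = d := by
      have h2 := hf (MvPolynomial.mem_support_iff.1 hm)
      rw [← h2, Finsupp.weight_apply, Finsupp.sum_fintype]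
      · simp
      · simp
    simp only [mul_pow]
    rw [Finset.prod_mul_distrib, Finset.prod_pow_eq_pow_sum, hdeg]
    have h3 : (MvPolynomial.monomial m (f.coeff m) : MvPolynomial V K) =
        MvPolynomial.C (f.coeff m) * ∏ v, MvPolynomial.X v ^ m v := by
      rw [MvPolynomial.monomial_eq, Finsupp.prod_fintype]
      simp
    rw [h3, map_mul, map_prod]
    simp only [map_pow, RingHom.comp_apply]
    ring
  rw [Finset.sum_congr rfl h1, ← Finset.mul_sum, ← map_sum]
  congr 2
  exact (MvPolynomial.as_sum f).symm

/-- the geometric series of a matrix -/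
noncomputable def geo {R : Type} [CommRing R] {N : ℕ} (B : Matrix (Fin N) (Fin N) R) :
    Matrix (Fin N) (Fin N) (PowerSeries R) :=
  fun p q => PowerSeries.mk (fun k => ((-B) ^ k) p q)

theorem geo_mul {R : Type} [CommRing R] {N : ℕ} (B : Matrix (Fin N) (Fin N) R) :
    (1 + B.map (fun x => PowerSeries.X * PowerSeries.C x)) * geo B = 1 := by
  rw [add_mul, one_mul]
  ext1 p q
  rw [Matrix.add_apply, Matrix.mul_apply]
  have h1 : ∑ r, B.map (fun x => PowerSeries.X * PowerSeries.C x) p r * geo B r q =
      PowerSeries.X * ∑ r, PowerSeries.C (B p r) * geo B r q := by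
    rw [Finset.mul_sum]
    apply Finset.sum_congr rfl
    intro r _
    rw [Matrix.map_apply]
    ring
  rw [h1]
  ext k
  rw [map_add]
  cases k with
  | zero =>
    simp [geo, Matrix.one_apply]
  | succ k =>
    rw [PowerSeries.coeff_succ_X_mul, map_sum]
    simp only [geo, PowerSeries.coeff_mk, PowerSeries.coeff_C_mul]
    have h2 : ((-B) ^ (k + 1)) p q = - ∑ r, B p r * ((-B) ^ k) r q := by
      rw [pow_succ', Matrix.mul_apply, ← Finset.sum_neg_distrib]
      apply Finset.sum_congr rfl
      intro r _
      rw [Matrix.neg_apply]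
      ring
    rw [h2]
    rw [neg_add_cancel, Matrix.one_apply]
    split_ifs <;> simp

theorem schur_coeff {R : Type} [CommRing R] [IsDomain R] {N n : ℕ} (l : R) (u v : Fin N → R)
    (B : Matrix (Fin N) (Fin N) R) (f : R)
    (h : (Matrix.fromBlocks (1 + B.map (fun x => PowerSeries.X * PowerSeries.C x))
      (Matrix.of fun (p : Fin N) (_ : Unit) => PowerSeries.X * PowerSeries.C (v p))
      (Matrix.of fun (_ : Unit) (q : Fin N) => PowerSeries.X * PowerSeries.C (u q))
      (Matrix.of fun (_ _ : Unit) => PowerSeries.X * PowerSeries.C l)).det =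
      PowerSeries.X ^ (n + 2) * PowerSeries.C f) :
    f = - ∑ p : Fin N, ∑ q : Fin N, u p * ((-B) ^ n) p q * v q := by
  set A : Matrix (Fin N) (Fin N) (PowerSeries R) :=
    1 + B.map (fun x => PowerSeries.X * PowerSeries.C x) with hA
  have hinv : A * geo B = 1 := geo_mul B
  let iA : Invertible A := invertibleOfRightInverse A (geo B) hinv
  have hinvOf : ⅟A = geo B := invOf_eq_right_inv hinv
  rw [Matrix.det_fromBlocks₁₁, hinvOf, Matrix.det_unique (n := Unit)] at h
  have hF1 : ((Matrix.of fun (_ _ : Unit) => PowerSeries.X * PowerSeries.C l) -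
      (Matrix.of fun (_ : Unit) (q : Fin N) => PowerSeries.X * PowerSeries.C (u q)) * geo B *
      (Matrix.of fun (p : Fin N) (_ : Unit) => PowerSeries.X * PowerSeries.C (v p)) :
        Matrix Unit Unit (PowerSeries R)) default default =
      PowerSeries.X * PowerSeries.C l - PowerSeries.X * (PowerSeries.X *
      ∑ p : Fin N, ∑ q : Fin N, PowerSeries.C (u p * v q) * geo B p q) := by
    rw [Matrix.sub_apply, Matrix.mul_apply]
    congr 1
    simp only [Matrix.mul_apply, Matrix.of_apply]
    simp only [Finset.sum_mul, Finset.mul_sum]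
    rw [Finset.sum_comm]
    apply Finset.sum_congr rfl
    intro p _
    apply Finset.sum_congr rfl
    intro q _
    rw [map_mul]
    ring
  rw [hF1] at h
  set G : PowerSeries R := ∑ p : Fin N, ∑ q : Fin N, PowerSeries.C (u p * v q) * geo B p q
    with hG
  set F : PowerSeries R := PowerSeries.X * PowerSeries.C l -
    PowerSeries.X * (PowerSeries.X * G) with hF
  have hcA : PowerSeries.constantCoeff A.det = 1 := by
    rw [RingHom.map_det]
    have : (PowerSeries.constantCoeff (R := R)).mapMatrix A = 1 := by
      rw [hA, map_add, map_one]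
      have h2 : (PowerSeries.constantCoeff (R := R)).mapMatrix
          (B.map (fun x => PowerSeries.X * PowerSeries.C x)) = 0 := by
        ext1 p q
        simp
      rw [h2, add_zero]
    rw [this, Matrix.det_one]
  have hunit : IsUnit A.det := by
    rw [PowerSeries.isUnit_iff_constantCoeff, hcA]
    exact isUnit_one
  have hdvd : PowerSeries.X ^ (n + 2) ∣ F := by
    have h3 : PowerSeries.X ^ (n + 2) ∣ A.det * F := ⟨PowerSeries.C f, h⟩
    exact (hunit.dvd_mul_left).1 h3
  obtain ⟨H, hH⟩ := hdvd
  have h4 : A.det * H = PowerSeries.C f := by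
    have h5 : PowerSeries.X ^ (n + 2) * (A.det * H) =
        PowerSeries.X ^ (n + 2) * PowerSeries.C f := by
      rw [← h, hH]; ring
    exact mul_left_cancel₀ (pow_ne_zero _ PowerSeries.X_ne_zero) h5
  have h6 : PowerSeries.constantCoeff H = f := by
    have h7 := congrArg PowerSeries.constantCoeff h4
    rw [map_mul, hcA, one_mul, PowerSeries.constantCoeff_C] at h7
    exact h7
  have h8 : PowerSeries.coeff (n + 2) F = f := by
    rw [hH]
    have := PowerSeries.coeff_X_pow_mul H (n + 2) 0
    rw [zero_add] at this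
    rw [this, PowerSeries.coeff_zero_eq_constantCoeff_apply, h6]
  have h9 : PowerSeries.coeff (n + 2) F = - PowerSeries.coeff n G := by
    rw [hF, map_sub, PowerSeries.coeff_succ_X_mul, PowerSeries.coeff_succ_X_mul,
      PowerSeries.coeff_succ_X_mul, PowerSeries.coeff_C, if_neg (by omega), zero_sub]
  have h10 : PowerSeries.coeff n G =
      ∑ p : Fin N, ∑ q : Fin N, u p * ((-B) ^ n) p q * v q := by
    rw [hG, map_sum]
    apply Finset.sum_congr rfl
    intro p _
    rw [map_sum]
    apply Finset.sum_congr rfl
    intro q _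
    rw [PowerSeries.coeff_C_mul, geo, PowerSeries.coeff_mk]
    ring
  rw [← h8, h9, h10]

/-- a determinant `det (diag (0, 1, …, 1) + L)` with linear forms `L` which is homogeneous of
degree `n ≥ 2` is an iterated product -/
theorem det_eq {N n : ℕ} (L : Matrix (Fin (N + 1)) (Fin (N + 1)) (MvPolynomial V K))
    (hL : ∀ p q, (L p q).IsHomogeneous 1) {f : MvPolynomial V K} (hf : f.IsHomogeneous (n + 2))
    (hdet : (Matrix.diagonal (fun p : Fin (N + 1) => if p = 0 then (0 : MvPolynomial V K) else 1) +
      L).det = f) :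
    f = - ∑ p : Fin N, ∑ q : Fin N,
      L 0 p.succ * ((-(L.submatrix Fin.succ Fin.succ)) ^ n) p q * L q.succ 0 := by
  classical
  let e : Fin N ⊕ Unit ≃ Fin (N + 1) :=
    ((finSuccEquiv N).trans (Equiv.optionEquivSumPUnit _)).symm
  have he1 : ∀ i, e (Sum.inl i) = i.succ := by
    intro i
    simp [e]
  have he2 : ∀ i, e (Sum.inr i) = 0 := by
    intro i
    simp [e]
  -- the scaled matrix
  set M : Matrix (Fin (N + 1)) (Fin (N + 1)) (PowerSeries (MvPolynomial V K)) :=
    (scale K V).mapMatrix
      (Matrix.diagonal (fun p : Fin (N + 1) => if p = 0 then (0 : MvPolynomial V K) else 1) + L)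
    with hM
  have hMdet : M.det = PowerSeries.X ^ (n + 2) * PowerSeries.C f := by
    rw [hM, ← RingHom.map_det, hdet, scale_hom hf]
  have hMe : ∀ p q, M p q = (if p = q then (if p = 0 then 0 else 1) else 0) +
      PowerSeries.X * PowerSeries.C (L p q) := by
    intro p q
    rw [hM, RingHom.mapMatrix_apply, Matrix.map_apply, Matrix.add_apply, map_add,
      scale_hom (hL p q), pow_one, Matrix.diagonal_apply]
    congr 1
    split_ifs <;> simp
  have hblock : M.submatrix e e = Matrix.fromBlocks
      (1 + (L.submatrix Fin.succ Fin.succ).map (fun x => PowerSeries.X * PowerSeries.C x))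
      (Matrix.of fun (p : Fin N) (_ : Unit) => PowerSeries.X * PowerSeries.C (L p.succ 0))
      (Matrix.of fun (_ : Unit) (q : Fin N) => PowerSeries.X * PowerSeries.C (L 0 q.succ))
      (Matrix.of fun (_ _ : Unit) => PowerSeries.X * PowerSeries.C (L 0 0)) := by
    ext1 p q
    rcases p with p | p <;> rcases q with q | q
    · rw [Matrix.submatrix_apply, Matrix.fromBlocks_apply₁₁, he1, he1, hMe, Matrix.add_apply,
        Matrix.one_apply, Matrix.map_apply, Matrix.submatrix_apply]
      congr 1
      simp [Fin.succ_inj, Fin.succ_ne_zero]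
    · rw [Matrix.submatrix_apply, Matrix.fromBlocks_apply₁₂, he1, he2, hMe,
        if_neg (Fin.succ_ne_zero p), zero_add, Matrix.of_apply]
    · rw [Matrix.submatrix_apply, Matrix.fromBlocks_apply₂₁, he1, he2, hMe,
        if_neg (Fin.succ_ne_zero q).symm, zero_add, Matrix.of_apply]
    · rw [Matrix.submatrix_apply, Matrix.fromBlocks_apply₂₂, he2, hMe, if_pos rfl,
        if_pos rfl, zero_add, Matrix.of_apply]
  apply schur_coeff (L 0 0) (fun q => L 0 q.succ) (fun p => L p.succ 0)
    (L.submatrix Fin.succ Fin.succ) f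
  rw [← hblock, Matrix.det_submatrix_equiv_self, hMdet]

end

end Pool.Agent.J4H60.PM
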