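import Pool.Agent.J4H60.PM.Core
import Pool.Agent.J4H60.PM.Schur

set_option autoImplicit false

namespace Pool.Agent.J4H60.PM

open Finset MvPolynomial
open scoped NNReal

section dom

variable {𝕜 : Type} [NormedField 𝕜] {V : Type}

/-- coefficientwise domination -/
def Dom (f : MvPolynomial V 𝕜) (F : MvPolynomial V ℝ≥0) : Prop :=
  ∀ d, ‖f.coeff d‖₊ ≤ F.coeff d

theorem Dom.add {f g : MvPolynomial V 𝕜} {F G : MvPolynomial V ℝ≥0} (h1 : Dom f F)
    (h2 : Dom g G) : Dom (f + g) (F + G) := by
  intro d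
  rw [coeff_add, coeff_add]
  exact le_trans (nnnorm_add_le _ _) (add_le_add (h1 d) (h2 d))

theorem Dom.mul {f g : MvPolynomial V 𝕜} {F G : MvPolynomial V ℝ≥0} (h1 : Dom f F)
    (h2 : Dom g G) : Dom (f * g) (F * G) := by
  classical
  intro d
  rw [coeff_mul, coeff_mul]
  refine le_trans (nnnorm_sum_le _ _) (Finset.sum_le_sum fun x _ => ?_)
  rw [nnnorm_mul]
  exact mul_le_mul (h1 _) (h2 _) zero_le zero_le

theorem Dom.neg {f : MvPolynomial V 𝕜} {F : MvPolynomial V ℝ≥0} (h1 : Dom f F) :
    Dom (-f) F := by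
  intro d
  rw [coeff_neg, nnnorm_neg]
  exact h1 d

theorem Dom.sum {ι : Type} (s : Finset ι) {f : ι → MvPolynomial V 𝕜}
    {F : ι → MvPolynomial V ℝ≥0} (h : ∀ i ∈ s, Dom (f i) (F i)) :
    Dom (∑ i ∈ s, f i) (∑ i ∈ s, F i) := by
  intro d
  rw [coeff_sum, coeff_sum]
  exact le_trans (nnnorm_sum_le _ _) (Finset.sum_le_sum fun i hi => h i hi d)

/-- more dominating -/
theorem Dom.trans_le {f : MvPolynomial V 𝕜} {F G : MvPolynomial V ℝ≥0} (h1 : Dom f F)
    (h : ∀ d, F.coeff d ≤ G.coeff d) : Dom f G := fun d => le_trans (h1 d) (h d)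

/-- the polynomial of the absolute values of the coefficients -/
noncomputable def absPoly (f : MvPolynomial V 𝕜) : MvPolynomial V ℝ≥0 :=
  ∑ d ∈ f.support, monomial d ‖f.coeff d‖₊

theorem coeff_absPoly (f : MvPolynomial V 𝕜) (d : V →₀ ℕ) :
    (absPoly f).coeff d = ‖f.coeff d‖₊ := by
  classical
  unfold absPoly
  rw [coeff_sum]
  simp only [coeff_monomial]
  rw [Finset.sum_ite_eq']
  split_ifs with h
  · rfl
  · rw [notMem_support_iff.1 h, nnnorm_zero]

theorem dom_absPoly (f : MvPolynomial V 𝕜) : Dom f (absPoly f) := by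
  intro d
  rw [coeff_absPoly]

theorem absPoly_hom {f : MvPolynomial V 𝕜} {e : ℕ} (hf : f.IsHomogeneous e) :
    (absPoly f).IsHomogeneous e := by
  intro d hd
  apply hf
  intro h
  apply hd
  rw [coeff_absPoly, h, nnnorm_zero]

theorem eval_absPoly [Fintype V] {f : MvPolynomial V 𝕜} (hf : f.IsHomogeneous 1) :
    eval (fun _ => (1 : ℝ≥0)) (absPoly f) = ∑ v, ‖f.coeff (Finsupp.single v 1)‖₊ := by
  classical
  unfold absPoly
  rw [map_sum]
  simp only [eval_monomial, one_pow]
  have h1 : ∀ d ∈ f.support, ∃ v, d = Finsupp.single v 1 := by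
    intro d hd
    have h2 := hf (mem_support_iff.1 hd)
    rw [Finsupp.weight_apply, Finsupp.sum_fintype] at h2
    · simp only [Pi.one_apply, smul_eq_mul, mul_one] at h2
      have h3 : ∃ v ∈ (univ : Finset V), d v ≠ 0 := by
        by_contra hcon
        push Not at hcon
        rw [Finset.sum_eq_zero hcon] at h2
        omega
      obtain ⟨v, _, hv⟩ := h3
      refine ⟨v, ?_⟩
      have h4 : d v + ∑ w ∈ univ.erase v, d w = 1 := by
        rw [Finset.add_sum_erase univ (fun w => d w) (Finset.mem_univ v)]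
        exact h2
      ext w
      rw [Finsupp.single_apply]
      by_cases hw : v = w
      · subst hw
        rw [if_pos rfl]
        omega
      · rw [if_neg hw]
        have h5 : d w ≤ ∑ w ∈ univ.erase v, d w :=
          Finset.single_le_sum (f := fun w => d w) (fun _ _ => Nat.zero_le _)
            (Finset.mem_erase.2 ⟨fun h => hw h.symm, Finset.mem_univ _⟩)
        omega
    · simp
  have h2 : f.support ⊆ univ.image (fun v : V => Finsupp.single v 1) := by
    intro d hd
    obtain ⟨v, rfl⟩ := h1 d hd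
    exact Finset.mem_image_of_mem _ (Finset.mem_univ _)
  rw [Finset.sum_subset (f := fun d => ‖f.coeff d‖₊ * (d.prod fun _ _ => (1 : ℝ≥0))) h2]
  · rw [Finset.sum_image]
    · apply Finset.sum_congr rfl
      intro v _
      simp
    · intro v _ w _ h
      exact (Finsupp.single_left_inj one_ne_zero).1 h
  · intro d _ hd
    rw [notMem_support_iff.1 hd]
    simp

end dom

section mat

variable {n : ℕ}

/-- powers of matrices of linear forms, as sums over paths -/
theorem pow_paths {s : ℕ} (M : Matrix (Fin s) (Fin s) (Pol n))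
    (hpow : ∀ e p q, ((M ^ e) p q).IsHomogeneous e) (t : ℕ) :
    ∀ (e : Fin (t + 1) → ℕ) (p q : Fin s), ∃ (I : Type) (_ : Fintype I)
      (P : I → Fin (t + 1) → Pol n), Fintype.card I = s ^ t ∧
      (∀ a b, (P a b).IsHomogeneous (e b)) ∧ (M ^ (∑ b, e b)) p q = ∑ a, ∏ b, P a b := by
  induction t with
  | zero =>
    intro e p q
    refine ⟨Unit, inferInstance, fun _ b => (M ^ (e b)) p q, by simp, ?_, by simp⟩
    intro _ b
    exact hpow _ _ _
  | succ t ih =>
    intro e p q
    have h := fun r : Fin s => ih (fun b => e b.succ) r q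
    choose I hI P h1 h2 h3 using h
    refine ⟨Σ r : Fin s, I r, inferInstance,
      fun a => Fin.cons ((M ^ (e 0)) p a.1) (P a.1 a.2), ?_, ?_, ?_⟩
    · rw [Fintype.card_sigma, Finset.sum_congr rfl (fun r _ => h1 r)]
      simp [pow_succ, mul_comm]
    · rintro a b
      refine Fin.cases ?_ ?_ b
      · simpa using hpow (e 0) p a.1
      · intro b
        simpa using h2 a.1 a.2 b
    · rw [Fin.sum_univ_succ, pow_add, Matrix.mul_apply, Fintype.sum_sigma]
      apply Finset.sum_congr rfl
      intro r _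
      rw [h3 r, Finset.mul_sum]
      apply Finset.sum_congr rfl
      intro a _
      rw [Fin.prod_univ_succ (n := t + 1)]
      simp only [Fin.cons_zero, Fin.cons_succ]

theorem exists_parts (k : ℕ) (t : ℕ) : ∀ n : ℕ, n ≤ (t + 1) * k →
    ∃ e : Fin (t + 1) → ℕ, (∀ b, e b ≤ k) ∧ ∑ b, e b = n := by
  induction t with
  | zero =>
    intro n hn
    exact ⟨fun _ => n, fun _ => by simpa using hn, by simp⟩
  | succ t ih =>
    intro n hn
    obtain ⟨e, h1, h2⟩ := ih (n - min n k) (by
      have : (t + 1 + 1) * k = (t + 1) * k + k := by ring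
      omega)
    refine ⟨Fin.cons (min n k) e, ?_, ?_⟩
    · intro b
      refine Fin.cases ?_ ?_ b
      · simp
      · intro b
        simpa using h1 b
    · rw [Fin.sum_univ_succ]
      simp only [Fin.cons_zero, Fin.cons_succ]
      rw [h2]
      omega

theorem pow_hom {s : ℕ} {M : Matrix (Fin s) (Fin s) (Pol n)}
    (hM : ∀ p q, (M p q).IsHomogeneous 1) (e : ℕ) :
    ∀ p q, ((M ^ e) p q).IsHomogeneous e := by
  induction e with
  | zero =>
    intro p q
    rw [pow_zero, Matrix.one_apply]
    split_ifs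
    · exact isHomogeneous_one _ _
    · exact isHomogeneous_zero _ _ _
  | succ e ih =>
    intro p q
    rw [pow_succ, Matrix.mul_apply]
    apply IsHomogeneous.sum
    intro r _
    exact (ih p r).mul (hM r q)

theorem decs_pow {s : ℕ} (hn : 1 ≤ n) (M : Matrix (Fin s) (Fin s) (Pol n))
    (hM : ∀ p q, (M p q).IsHomogeneous 1) (p q : Fin s) : Decs n s ((M ^ n) p q) := by
  intro t k _ hk
  have hnt : n ≤ (t + 1) * k := by
    have h1 : (t + 2) * k ≤ 2 * ((t + 1) * k) := by
      have : 2 * ((t + 1) * k) = (2 * (t + 1)) * k := by ring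
      rw [this]
      exact Nat.mul_le_mul_right _ (by omega)
    omega
  obtain ⟨e, h1, h2⟩ := exists_parts k t n hnt
  obtain ⟨I, hI, P, h3, h4, h5⟩ := pow_paths M (pow_hom hM) t e p q
  rw [h2] at h5
  refine ⟨I, hI, P, fun _ => e, ?_, h4, fun _ => h1, fun _ => h2, h5⟩
  rw [h3]
  apply Nat.pow_le_pow_left
  calc s = 1 * (s * 1) := by ring
    _ ≤ 2 ^ t * (s * n) :=
      Nat.mul_le_mul Nat.one_le_two_pow (Nat.mul_le_mul_left _ hn)

/-- domination of the powers of a principal submatrix by the powers of the whole matrix -/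
theorem dom_pow {𝕜 : Type} [NormedField 𝕜] {N : ℕ}
    (L : Matrix (Fin (N + 1)) (Fin (N + 1)) (MvPolynomial (Fin n × Fin n) 𝕜)) (e : ℕ) :
    ∀ p q : Fin N, Dom (((-(L.submatrix Fin.succ Fin.succ)) ^ e) p q)
      (((Matrix.of fun p q => absPoly (L p q)) ^ e) p.succ q.succ) := by
  classical
  induction e with
  | zero =>
    intro p q d
    rw [pow_zero, pow_zero, Matrix.one_apply, Matrix.one_apply]
    simp only [Fin.succ_inj]
    split_ifs
    · rw [coeff_one, coeff_one]
      split_ifs <;> simp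
    · simp
  | succ e ih =>
    intro p q
    rw [pow_succ, pow_succ, Matrix.mul_apply, Matrix.mul_apply, Fin.sum_univ_succ]
    have h1 : Dom (∑ j, ((-(L.submatrix Fin.succ Fin.succ)) ^ e) p j *
        (-(L.submatrix Fin.succ Fin.succ)) j q)
        (∑ i : Fin N, ((Matrix.of fun p q => absPoly (L p q)) ^ e) p.succ i.succ *
          (Matrix.of fun p q => absPoly (L p q)) i.succ q.succ) := by
      apply Dom.sum
      intro j _
      apply (ih p j).mul
      rw [Matrix.neg_apply]
      exact (dom_absPoly (L j.succ q.succ)).neg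
    apply h1.trans_le
    intro d
    rw [coeff_add]
    exact le_add_of_nonneg_left zero_le

/-- the polynomial of a determinantal representation is dominated by a closed walk polynomial -/
theorem dom_rep {𝕜 : Type} [NormedField 𝕜] {N e : ℕ}
    (L : Matrix (Fin (N + 1)) (Fin (N + 1)) (MvPolynomial (Fin n × Fin n) 𝕜))
    (hL : ∀ p q, (L p q).IsHomogeneous 1) {f : MvPolynomial (Fin n × Fin n) 𝕜}
    (hf : f.IsHomogeneous (e + 2))
    (hdet : (Matrix.diagonal (fun p : Fin (N + 1) =>
      if p = 0 then (0 : MvPolynomial (Fin n × Fin n) 𝕜) else 1) + L).det = f) :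
    Dom f (((Matrix.of fun p q => absPoly (L p q)) ^ (e + 2)) 0 0) := by
  rw [det_eq L hL hf hdet]
  set M : Matrix (Fin (N + 1)) (Fin (N + 1)) (Pol n) := Matrix.of fun p q => absPoly (L p q) with hM
  have h1 : Dom (- ∑ p : Fin N, ∑ q : Fin N,
      L 0 p.succ * ((-(L.submatrix Fin.succ Fin.succ)) ^ e) p q * L q.succ 0)
      (∑ p : Fin N, ∑ q : Fin N, M 0 p.succ * (M ^ e) p.succ q.succ * M q.succ 0) := by
    apply Dom.neg
    apply Dom.sum
    intro p _
    apply Dom.sum
    intro q _
    exact ((dom_absPoly _).mul (dom_pow L e p q)).mul (dom_absPoly _)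
  apply h1.trans_le
  intro d
  have h2 : (M ^ (e + 2)) 0 0 =
      ∑ p : Fin (N + 1), ∑ q : Fin (N + 1), M 0 p * (M ^ e) p q * M q 0 := by
    have h3 : M ^ (e + 2) = M * M ^ e * M := by
      rw [← pow_succ', ← pow_succ]
    rw [h3, Matrix.mul_apply, Finset.sum_comm]
    apply Finset.sum_congr rfl
    intro q _
    rw [Matrix.mul_apply, Finset.sum_mul]
  rw [h2, coeff_sum, coeff_sum, Fin.sum_univ_succ (n := N)
    (f := fun p => coeff d (∑ q : Fin (N + 1), M 0 p * (M ^ e) p q * M q 0))]
  refine le_trans ?_ (le_add_of_nonneg_left zero_le)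
  apply Finset.sum_le_sum
  intro p _
  rw [coeff_sum, coeff_sum, Fin.sum_univ_succ (n := N)
    (f := fun q => coeff d (M 0 p.succ * (M ^ e) p.succ q * M q 0))]
  exact le_add_of_nonneg_left zero_le

end mat

end Pool.Agent.J4H60.PM
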