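import Pool.Agent.J4H60.PM.Asym

set_option autoImplicit false

namespace Pool.Agent.J4H60.PM

open Finset MvPolynomial
open scoped NNReal

theorem exists_sl {ε : ℝ} (hε : 0 < ε) (hε1 : ε ≤ 1) :
    ∃ (t : ℕ) (p : ℝ), 0 < p ∧ p < 1 ∧ (1 - p) / p ≤ 1 ∧ SL (t + 1) p ∧
      1 - ε ≤ (1 - p) / p * Real.log (((t : ℝ) + 2) / 2) := by
  set η : ℝ := ε / 4 with hη
  have hη0 : 0 < η := by positivity
  have hη1 : η ≤ 1 / 4 := by rw [hη]; linarith
  set κ : ℝ := 1 - η + Real.log (1 - η) with hκ
  have hlog1 : - (2 * η) ≤ Real.log (1 - η) := by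
    have h1 := Real.one_sub_inv_le_log_of_pos (by linarith : 0 < 1 - η)
    have h2 : (1 - η)⁻¹ ≤ 1 + 2 * η := by
      rw [inv_le_iff_one_le_mul₀ (by linarith)]
      nlinarith
    linarith
  have hlog2 : Real.log (1 - η) ≤ 0 := Real.log_nonpos (by linarith) (by linarith)
  have hκ1 : κ ≤ 1 := by rw [hκ]; linarith
  have hκ0 : 1 - 3 * η ≤ κ := by rw [hκ]; linarith
  have hκpos : 0 < κ := by linarith
  set T : ℕ := ⌈Real.exp (2 / η ^ 2)⌉₊ with hT
  have hTle : Real.exp (2 / η ^ 2) ≤ T := Nat.le_ceil _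
  have hTpos : (0 : ℝ) < T := lt_of_lt_of_le (Real.exp_pos _) hTle
  have hT1 : 1 ≤ T := by exact_mod_cast hTpos
  set L : ℝ := Real.log T with hL
  have hL2 : 2 / η ^ 2 ≤ L := by
    rw [hL, Real.le_log_iff_exp_le hTpos]
    exact hTle
  have hLpos : 0 < L := lt_of_lt_of_le (by positivity) hL2
  have hL3 : 32 ≤ L := by
    refine le_trans ?_ hL2
    rw [le_div_iff₀ (by positivity)]
    nlinarith
  have hLη : 1 / η ≤ L := by
    refine le_trans ?_ hL2
    rw [div_le_div_iff₀ hη0 (by positivity)]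
    nlinarith
  set lam : ℝ := κ / L with hlam
  have hlam0 : 0 < lam := div_pos hκpos hLpos
  have hlamL : lam ≤ 1 / L := div_le_div_of_nonneg_right hκ1 hLpos.le
  have hinv : L ≤ 1 / lam := by
    rw [le_div_iff₀ hlam0, hlam]
    rw [mul_div_cancel₀ _ hLpos.ne']
    exact hκ1
  have h1L : 1 / L ≤ 1 / 32 := one_div_le_one_div_of_le (by norm_num) hL3
  have hlam1 : lam ≤ 1 := by linarith
  refine ⟨T - 1, 1 / (1 + lam), by positivity, ?_, ?_, ?_, ?_⟩
  · rw [div_lt_one (by linarith)]; linarith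
  · have h1 : (1 - 1 / (1 + lam)) / (1 / (1 + lam)) = lam := by field_simp; ring
    rw [h1]; exact hlam1
  · have h1 : (1 - 1 / (1 + lam)) / (1 / (1 + lam)) = lam := by field_simp; ring
    have h2 : (1 / (1 + lam)) / (1 - 1 / (1 + lam)) = 1 / lam := by
      have h3 : (1 : ℝ) + lam ≠ 0 := by positivity
      have h4 : 1 - 1 / (1 + lam) = lam / (1 + lam) := by field_simp; ring
      rw [h4]; field_simp
    have hT' : T - 1 + 1 = T := by omega
    rw [hT']
    apply sl_of_conditions (ξ := η) (e' := η) (by positivity)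
      (by rw [div_lt_one (by linarith)]; linarith) hη0 (by linarith) _ hη0
    · rw [h1]
      apply le_of_eq
      rw [Real.rpow_def_of_pos hTpos]
      rw [← hL, hlam, mul_div_cancel₀ _ hLpos.ne', hκ, Real.exp_add,
        Real.exp_log (by linarith : 0 < 1 - η)]
      ring
    · rw [h2]; linarith
    · rw [h2]
      have h3 : (2 : ℝ) ≤ Real.exp (1 / lam / Real.exp 1) := by
        have h4 : Real.exp 1 < 3 := by
          have := Real.exp_one_lt_d9
          linarith
        have h5 : 1 ≤ 1 / lam / Real.exp 1 := by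
          rw [le_div_iff₀ (Real.exp_pos 1)]
          linarith
        have h6 := Real.add_one_le_exp (1 / lam / Real.exp 1)
        linarith
      have h7 : Real.exp (-(η * (1 / lam))) ≤ 1 / 2 := by
        have h8 : 1 ≤ η * (1 / lam) := by
          calc (1 : ℝ) = η * (1 / η) := by field_simp
            _ ≤ η * (1 / lam) := mul_le_mul_of_nonneg_left (le_trans hLη hinv) hη0.le
        have h9 : Real.exp (-(η * (1 / lam))) ≤ Real.exp (-1) :=
          Real.exp_le_exp.2 (by linarith)
        have h10 : Real.exp (-1) ≤ 1 / 2 := by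
          rw [Real.exp_neg, inv_le_comm₀ (Real.exp_pos 1) (by norm_num)]
          have := Real.add_one_le_exp (1 : ℝ)
          norm_num
          linarith
        linarith
      nlinarith
    · have h3 : 1 - 1 / (1 + lam) ≤ lam := by
        have h4 : 1 - 1 / (1 + lam) = lam / (1 + lam) := by field_simp; ring
        rw [h4]
        exact div_le_self hlam0.le (by linarith)
      have h5 : 2 * lam ≤ η ^ 2 := by
        have h6 : lam ≤ 1 / (2 / η ^ 2) :=
          le_trans hlamL (one_div_le_one_div_of_le (by positivity) hL2)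
        have h7 : 1 / (2 / η ^ 2) = η ^ 2 / 2 := by field_simp
        rw [h7] at h6
        linarith
      linarith
  · have h1 : (1 - 1 / (1 + lam)) / (1 / (1 + lam)) = lam := by field_simp; ring
    rw [h1]
    have hc : ((T - 1 : ℕ) : ℝ) = (T : ℝ) - 1 := by
      rw [Nat.cast_sub hT1]; simp
    rw [hc]
    have h2 : L - 1 ≤ Real.log (((T : ℝ) - 1 + 2) / 2) := by
      have h3 : (T : ℝ) / 2 ≤ ((T : ℝ) - 1 + 2) / 2 := by linarith
      have h4 := Real.log_le_log (by positivity) h3
      rw [Real.log_div hTpos.ne' (by norm_num)] at h4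
      have h5 : Real.log 2 ≤ 1 := by
        have := Real.log_two_lt_d9
        linarith
      linarith
    have h3 : lam * (L - 1) ≤ lam * Real.log (((T : ℝ) - 1 + 2) / 2) :=
      mul_le_mul_of_nonneg_left h2 hlam0.le
    have h4 : lam * L = κ := by rw [hlam, div_mul_cancel₀ _ hLpos.ne']
    have h5 : 1 / L ≤ η := by
      rw [div_le_iff₀ hLpos]
      calc (1 : ℝ) = η * (1 / η) := by field_simp
        _ ≤ η * L := mul_le_mul_of_nonneg_left hLη hη0.le
    have h6 : (1 : ℝ) - ε = 1 - 4 * η := by rw [hη]; ring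
    rw [h6]
    nlinarith

theorem nn_sharp1 {ε : ℝ} (hε : 0 < ε) (hε1 : ε ≤ 1) :
    ∃ c : ℝ, 0 < c ∧ ∃ n0 : ℕ, ∀ n : ℕ, n0 ≤ n → ∀ s : ℕ, (s : ℝ) ≤ Real.exp (c * n) →
      ∀ P : Fin s → Pol n, NNProg P → ∀ u, (∀ σ, 1 ≤ (P u).coeff (pmono σ)) →
      n * Real.log n - ε * n ≤
        Real.log ((eval (fun _ => (1 : ℝ≥0)) (P u) : ℝ≥0) : ℝ) := by
  obtain ⟨t, p, hp, hp1, hlam1, hSL, hmain⟩ := exists_sl (half_pos hε) (by linarith)
  set c : ℝ := ε / (8 * (t + 1)) with hc
  have hc0 : 0 < c := by positivity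
  set δ : ℝ := ε / (8 * (2 * t + 1)) with hδ
  have hδ0 : 0 < δ := by positivity
  have hev : ∀ᶠ n : ℕ in Filter.atTop, Real.log n ≤ δ * n := by
    have h1 := Real.isLittleO_log_id_atTop.def hδ0
    have h2 := (tendsto_natCast_atTop_atTop (R := ℝ)).eventually h1
    filter_upwards [h2] with n hn
    simp only [id, Real.norm_eq_abs] at hn
    rw [abs_of_nonneg (a := (n : ℝ)) (Nat.cast_nonneg n)] at hn
    exact le_trans (le_abs_self _) hn
  obtain ⟨n1, hn1⟩ := Filter.eventually_atTop.1 hev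
  obtain ⟨n2, hn2⟩ := exists_nat_ge ((8 / ε) * ((t + 2) + (t + 1) + t ^ 2))
  refine ⟨c, hc0, max (max n1 n2) 1, ?_⟩
  intro n hn s hs P hP u hcoeff
  have hnn1 : n1 ≤ n := le_trans (le_trans (le_max_left _ _) (le_max_left _ _)) hn
  have hnn2 : n2 ≤ n := le_trans (le_trans (le_max_right _ _) (le_max_left _ _)) hn
  have hn1' : 1 ≤ n := le_trans (le_max_right _ _) hn
  have hn0 : (0 : ℝ) < n := by exact_mod_cast hn1'
  have hs1 : 1 ≤ s := by
    have := u.2
    omega
  set k : ℕ := (2 * n + (t + 1)) / (t + 2) with hk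
  have hdm := Nat.div_add_mod (2 * n + (t + 1)) (t + 2)
  have hml := Nat.mod_lt (2 * n + (t + 1)) (by omega : 0 < t + 2)
  rw [← hk] at hdm
  have hk2 : 2 * n ≤ (t + 2) * k := by omega
  have hk1 : 1 ≤ k := by
    rcases Nat.eq_zero_or_pos k with h0 | h0
    · rw [h0, Nat.mul_zero] at hk2
      omega
    · exact h0
  have hk3 : (t + 2) * k ≤ 2 * n + (t + 1) := by omega
  have hkn : k ≤ n := by
    by_contra hcon
    have h1 : n + 1 ≤ k := by omega
    have h2 : (t + 2) * (n + 1) ≤ (t + 2) * k := Nat.mul_le_mul_left _ h1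
    have h3 : (t + 2) * (n + 1) = t * n + t + 2 * n + 2 := by ring
    omega
  have h := nn_log hn1' hs1 hk1 hk2 hp hp1.le hSL hP u hcoeff
  set M : ℝ := Real.log ((eval (fun _ => (1 : ℝ≥0)) (P u) : ℝ≥0) : ℝ) with hM
  -- bounds for the logarithm of k + 1
  have hk3' : ((t : ℝ) + 2) * k ≤ 2 * n + (t + 1) := by exact_mod_cast hk3
  have hlk1 : n * Real.log (k + 1) ≤ n * Real.log n - n * Real.log (((t : ℝ) + 2) / 2) + (t + 2) := by
    have h1 : (k : ℝ) + 1 ≤ (n / (((t : ℝ) + 2) / 2)) * (1 + (t + 2) / n) := by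
      rw [div_mul_eq_mul_div, le_div_iff₀ (by positivity)]
      have : (n : ℝ) * (1 + (t + 2) / n) = n + (t + 2) := by field_simp
      rw [this]
      nlinarith
    have h2 := Real.log_le_log (by positivity) h1
    rw [Real.log_mul (by positivity) (by positivity), Real.log_div hn0.ne' (by positivity)] at h2
    have h3 : Real.log (1 + (t + 2) / n) ≤ (t + 2) / n := by
      have := Real.log_le_sub_one_of_pos (by positivity : (0 : ℝ) < 1 + (t + 2) / n)
      linarith
    have h4 : n * (((t : ℝ) + 2) / n) = t + 2 := by field_simp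
    nlinarith
  have hlog2 : Real.log 2 ≤ 1 := by
    have := Real.log_two_lt_d9
    linarith
  have hlogn0 : 0 ≤ Real.log n := Real.log_nonneg (by exact_mod_cast hn1')
  have hlk2 : Real.log (k + 1) ≤ 1 + Real.log n := by
    have h1 : (k : ℝ) + 1 ≤ 2 * n := by
      have : (k : ℝ) ≤ n := by exact_mod_cast hkn
      have : (1 : ℝ) ≤ n := by exact_mod_cast hn1'
      linarith
    have h2 := Real.log_le_log (by positivity) h1
    rw [Real.log_mul (by norm_num) hn0.ne'] at h2
    linarith
  have hls : Real.log s ≤ c * n := by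
    have hs0 : (0 : ℝ) < s := by exact_mod_cast hs1
    rw [Real.log_le_iff_le_exp hs0]
    exact hs
  have ht0 : (0 : ℝ) ≤ t := Nat.cast_nonneg t
  -- the error term
  set R : ℝ := (t + 2) + (t + 1) * (1 + Real.log n) + t * (t + c * n + Real.log n) with hR
  have hRle : R ≤ (ε / 2) * n := by
    have h1 := hn1 n hnn1
    have h2 : (8 / ε) * (((t : ℝ) + 2) + (t + 1) + t ^ 2) ≤ n :=
      le_trans hn2 (by exact_mod_cast hnn2)
    rw [div_mul_eq_mul_div, div_le_iff₀ hε] at h2
    have h3 : t * (c * n) ≤ (ε / 8) * n := by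
      have : (t : ℝ) * c ≤ ε / 8 := by
        rw [hc, mul_div_assoc', div_le_div_iff₀ (by positivity) (by norm_num)]
        nlinarith
      nlinarith
    have h4 : (2 * t + 1) * Real.log n ≤ (ε / 8) * n := by
      calc (2 * t + 1) * Real.log n ≤ (2 * t + 1) * (δ * n) :=
            mul_le_mul_of_nonneg_left h1 (by positivity)
        _ = (ε / 8) * n := by rw [hδ]; field_simp
    rw [hR]
    nlinarith
  have hR0 : 0 ≤ R := by
    rw [hR]
    positivity
  -- combine
  have h1 : (n + ((t : ℝ) + 1)) * Real.log (k + 1) - n +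
      t * (t * Real.log 2 + Real.log s + Real.log n) ≤
      n * Real.log n - n - n * Real.log (((t : ℝ) + 2) / 2) + R := by
    have h2 : ((t : ℝ) + 1) * Real.log (k + 1) ≤ (t + 1) * (1 + Real.log n) :=
      mul_le_mul_of_nonneg_left hlk2 (by positivity)
    have h3 : (t : ℝ) * (t * Real.log 2 + Real.log s + Real.log n) ≤
        t * (t + c * n + Real.log n) := by
      apply mul_le_mul_of_nonneg_left _ ht0
      nlinarith
    rw [hR]
    linarith
  have h2 := mul_le_mul_of_nonneg_left h1 (by linarith : 0 ≤ 1 - p)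
  have h3 : n * Real.log n - n ≤ (1 - p) * (n * Real.log n - n -
      n * Real.log (((t : ℝ) + 2) / 2) + R) + p * M := by linarith
  set lam : ℝ := (1 - p) / p with hlam
  have hlp : 1 - p = lam * p := by rw [hlam, div_mul_cancel₀ _ hp.ne']
  rw [hlp] at h3
  have hlam0 : 0 ≤ lam := div_nonneg (by linarith) hp.le
  -- divide by p
  have h4 : n * Real.log n - n + lam * (n * Real.log (((t : ℝ) + 2) / 2) - R) ≤ M := by
    have h5 : p * (n * Real.log n - n + lam * (n * Real.log (((t : ℝ) + 2) / 2) - R)) ≤ p * M := by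
      have h6 : 1 - lam * p = p := by linarith
      have h7 : (n * Real.log n - n) * (1 - lam * p) = (n * Real.log n - n) * p := by rw [h6]
      linarith
    exact le_of_mul_le_mul_left h5 hp
  have h5 : lam * R ≤ R := by nlinarith
  have h6 : (1 - ε / 2) * n ≤ lam * Real.log (((t : ℝ) + 2) / 2) * n :=
    mul_le_mul_of_nonneg_right hmain hn0.le
  nlinarith

end Pool.Agent.J4H60.PM
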