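import Mathlib

set_option autoImplicit false

namespace Pool.Agent.J4H60.PM

open Finset
open scoped NNReal

section

variable {V : Type} {ι : Type}

/-- pairs of indices of positive degrees with given sum of the degrees, the larger one first -/
abbrev Pairs (d : ι → ℕ) (e : ℕ) : Type :=
  {q : ι × ι // d q.1 + d q.2 = e ∧ 1 ≤ d q.2 ∧ d q.2 ≤ d q.1}

noncomputable instance (d : ι → ℕ) (e : ℕ) [Fintype ι] : Fintype (Pairs d e) := by
  classical
  infer_instance

/-- a finite system of homogeneous polynomials in which everything of degree above `k` is a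
combination of products -/
structure Sys (F : ι → MvPolynomial V ℝ≥0) (d : ι → ℕ) (k : ℕ) : Prop where
  hom : ∀ i, (F i).IsHomogeneous (d i)
  dec : ∀ i, k < d i → F i ∈ Submodule.span ℝ≥0
    (Set.range (fun q : Pairs d (d i) => F q.1.1 * F q.1.2))

/-- the contexts -/
noncomputable def ctx [Fintype ι] [DecidableEq ι] (F : ι → MvPolynomial V ℝ≥0) (d : ι → ℕ) (k : ℕ)
    (c : (i : ι) → Pairs d (d i) → ℝ≥0) (j : ι) (i : ι) : MvPolynomial V ℝ≥0 :=
  ∑ q : Pairs d (d i), MvPolynomial.C (c i q) *
    (if d q.1.1 ≤ k then (if q.1.1 = j then F q.1.2 else 0)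
      else ctx F d k c j q.1.1 * F q.1.2)
termination_by d i
decreasing_by
  have _h1 := q.2.1
  have _h2 := q.2.2.1
  omega

variable [Fintype ι] [DecidableEq ι] {F : ι → MvPolynomial V ℝ≥0} {d : ι → ℕ} {k : ℕ}
  {c : (i : ι) → Pairs d (d i) → ℝ≥0}

theorem ctx_sum (hc : ∀ i, k < d i → ∑ q : Pairs d (d i), c i q • (F q.1.1 * F q.1.2) = F i) :
    ∀ (e : ℕ) (i : ι), d i = e → k < d i →
      F i = ∑ j ∈ univ.filter (fun j => k < 2 * d j ∧ d j ≤ k), F j * ctx F d k c j i := by
  intro e
  induction e using Nat.strong_induction_on with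
  | _ e ih =>
    intro i hi hk
    have h1 : ∀ j, ctx F d k c j i = ∑ q : Pairs d (d i), MvPolynomial.C (c i q) *
        (if d q.1.1 ≤ k then (if q.1.1 = j then F q.1.2 else 0)
          else ctx F d k c j q.1.1 * F q.1.2) := by
      intro j
      rw [ctx]
    simp only [h1, Finset.mul_sum]
    rw [Finset.sum_comm]
    conv_lhs => rw [← hc i hk]
    apply Finset.sum_congr rfl
    intro q _
    have hq1 := q.2.1
    have hq2 := q.2.2.1
    have hq3 := q.2.2.2
    by_cases hle : d q.1.1 ≤ k
    · simp only [if_pos hle]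
      rw [Finset.sum_eq_single q.1.1]
      · rw [if_pos rfl, MvPolynomial.smul_eq_C_mul]
        ring
      · intro b _ hb
        rw [if_neg (fun h => hb h.symm)]
        ring
      · intro h
        exfalso
        apply h
        rw [Finset.mem_filter]
        exact ⟨Finset.mem_univ _, by omega, hle⟩
    · simp only [if_neg hle]
      have h2 := ih (d q.1.1) (by omega) q.1.1 rfl (by omega)
      conv_lhs => rw [h2]
      rw [MvPolynomial.smul_eq_C_mul, Finset.sum_mul, Finset.mul_sum]
      apply Finset.sum_congr rfl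
      intro j _
      ring

theorem ctx_hom (hF : ∀ i, (F i).IsHomogeneous (d i)) (j : ι) (hj : d j ≤ k) :
    ∀ (e : ℕ) (i : ι), d i = e → k < d i →
      (ctx F d k c j i).IsHomogeneous (d i - d j) := by
  intro e
  induction e using Nat.strong_induction_on with
  | _ e ih =>
    intro i hi hk
    rw [ctx]
    apply MvPolynomial.IsHomogeneous.sum
    intro q _
    have hq1 := q.2.1
    have hq2 := q.2.2.1
    have hq3 := q.2.2.2
    apply MvPolynomial.IsHomogeneous.C_mul
    by_cases hle : d q.1.1 ≤ k
    · rw [if_pos hle]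
      by_cases hqj : q.1.1 = j
      · rw [if_pos hqj]
        have : d i - d j = d q.1.2 := by rw [← hqj]; omega
        rw [this]
        exact hF _
      · rw [if_neg hqj]
        exact MvPolynomial.isHomogeneous_zero _ _ _
    · rw [if_neg hle]
      have h2 := ih (d q.1.1) (by omega) q.1.1 rfl (by omega)
      have h3 := h2.mul (hF q.1.2)
      have : d i - d j = d q.1.1 - d j + d q.1.2 := by omega
      rw [this]
      exact h3

/-- the extended system -/
noncomputable def extF (F : ι → MvPolynomial V ℝ≥0) (d : ι → ℕ) (k : ℕ)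
    (c : (i : ι) → Pairs d (d i) → ℝ≥0) (j : ι) : ι ⊕ ι → MvPolynomial V ℝ≥0 :=
  Sum.elim F (fun x => if k < d x then ctx F d k c j x else 0)

def extd (d : ι → ℕ) (k : ℕ) (j : ι) : ι ⊕ ι → ℕ :=
  Sum.elim d (fun x => if k < d x then d x - d j else 1)

theorem span_left (c : (i : ι) → Pairs d (d i) → ℝ≥0) (j : ι) (e : ℕ) :
    Submodule.span ℝ≥0 (Set.range (fun q : Pairs d e => F q.1.1 * F q.1.2)) ≤
    Submodule.span ℝ≥0 (Set.range (fun q : Pairs (extd d k j) e =>
      extF F d k c j q.1.1 * extF F d k c j q.1.2)) := by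
  apply Submodule.span_mono
  rintro _ ⟨q, rfl⟩
  exact ⟨⟨(Sum.inl q.1.1, Sum.inl q.1.2), q.2⟩, rfl⟩

theorem span_pair {κ : Type} (G : κ → MvPolynomial V ℝ≥0) (δ : κ → ℕ) (x y : κ) (e : ℕ)
    (h : δ x + δ y = e) (hx : 1 ≤ δ x) (hy : 1 ≤ δ y) :
    G x * G y ∈ Submodule.span ℝ≥0 (Set.range (fun q : Pairs δ e => G q.1.1 * G q.1.2)) := by
  apply Submodule.subset_span
  rcases le_total (δ y) (δ x) with h1 | h1
  · exact ⟨⟨(x, y), h, hy, h1⟩, rfl⟩
  · refine ⟨⟨(y, x), by simp only; omega, hx, h1⟩, ?_⟩
    simp only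
    ring

theorem ext_sys (hk1 : 1 ≤ k) (hS : Sys F d k)
    (j : ι) (hj : d j ≤ k) : Sys (extF F d k c j) (extd d k j) k := by
  constructor
  · rintro (i | i)
    · exact hS.hom i
    · simp only [extF, extd, Sum.elim_inr]
      split_ifs with h
      · exact ctx_hom hS.hom j hj _ i rfl h
      · exact MvPolynomial.isHomogeneous_zero _ _ _
  · rintro (i | i) hi
    · exact span_left c j _ (hS.dec i hi)
    · have hki : k < d i := by
        by_contra hcon
        simp only [extd, Sum.elim_inr, if_neg hcon] at hi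
        omega
      have hd : extd d k j (Sum.inr i) = d i - d j := by
        simp only [extd, Sum.elim_inr, if_pos hki]
      have hF : extF F d k c j (Sum.inr i) = ctx F d k c j i := by
        simp only [extF, Sum.elim_inr, if_pos hki]
      rw [hd] at hi ⊢
      rw [hF, ctx]
      apply Submodule.sum_mem
      intro q _
      have hq1 := q.2.1
      have hq2 := q.2.2.1
      have hq3 := q.2.2.2
      rw [← MvPolynomial.smul_eq_C_mul]
      apply Submodule.smul_mem
      by_cases hle : d q.1.1 ≤ k
      · rw [if_pos hle]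
        by_cases hqj : q.1.1 = j
        · rw [if_pos hqj]
          have h1 : d i - d j = d q.1.2 := by rw [← hqj]; omega
          rw [h1]
          exact span_left c j _ (hS.dec q.1.2 (by omega))
        · rw [if_neg hqj]
          exact Submodule.zero_mem _
      · rw [if_neg hle]
        have h1 : extF F d k c j (Sum.inr q.1.1) = ctx F d k c j q.1.1 := by
          simp only [extF, Sum.elim_inr, if_pos (not_le.1 hle)]
        have h2 : extF F d k c j (Sum.inl q.1.2) = F q.1.2 := rfl
        have h3 : extd d k j (Sum.inr q.1.1) = d q.1.1 - d j := by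
          simp only [extd, Sum.elim_inr, if_pos (not_le.1 hle)]
        have h4 : extd d k j (Sum.inl q.1.2) = d q.1.2 := rfl
        rw [← h1, ← h2]
        apply span_pair
        · rw [h3, h4]; omega
        · rw [h3]; omega
        · rw [h4]; exact hq2

end

/-- the number of products -/
def Nr : ℕ → ℕ → ℕ
  | 0, _ => 1
  | r + 1, M => M * Nr r (2 * M)

theorem Nr_pos (r : ℕ) : ∀ M : ℕ, 1 ≤ M → 1 ≤ Nr r M := by
  induction r with
  | zero => intro M _; exact le_rfl
  | succ r ih =>
    intro M hM
    exact Nat.mul_pos hM (ih (2 * M) (by omega))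

theorem Nr_mono (r : ℕ) : ∀ M M' : ℕ, M ≤ M' → Nr r M ≤ Nr r M' := by
  induction r with
  | zero => intro M M' _; exact le_rfl
  | succ r ih =>
    intro M M' h
    exact Nat.mul_le_mul h (ih _ _ (by omega))

theorem decomp {V : Type} {k : ℕ} (hk1 : 1 ≤ k) (r : ℕ) :
    ∀ (ι : Type) [Fintype ι] (F : ι → MvPolynomial V ℝ≥0) (d : ι → ℕ), Sys F d k →
      ∀ i, 2 * d i ≤ (r + 2) * k →
      ∃ (I : Type) (_ : Fintype I) (P : I → Fin (r + 1) → MvPolynomial V ℝ≥0)
        (δ : I → Fin (r + 1) → ℕ),
        Fintype.card I ≤ Nr r (Fintype.card ι) ∧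
        (∀ a b, (P a b).IsHomogeneous (δ a b)) ∧
        (∀ a b, δ a b ≤ k) ∧ (∀ a, ∑ b, δ a b = d i) ∧ F i = ∑ a, ∏ b, P a b := by
  induction r with
  | zero =>
    intro ι _ F d hS i hi
    refine ⟨Unit, inferInstance, fun _ _ => F i, fun _ _ => d i, ?_, ?_, ?_, ?_, ?_⟩
    · simp [Nr]
    · intro _ _; exact hS.hom i
    · intro _ _
      change d i ≤ k
      omega
    · intro _; simp
    · simp
  | succ r ih =>
    intro ι _ F d hS i hi
    classical
    by_cases hik : d i ≤ k
    · refine ⟨Unit, inferInstance, fun _ => Fin.cons (F i) (fun _ => 1),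
        fun _ => Fin.cons (d i) (fun _ => 0), ?_, ?_, ?_, ?_, ?_⟩
      · have : 1 ≤ Fintype.card ι := Fintype.card_pos_iff.2 ⟨i⟩
        simpa using Nr_pos (r + 1) _ this
      · intro _ b
        refine Fin.cases ?_ ?_ b
        · simpa using hS.hom i
        · intro b
          simpa using MvPolynomial.isHomogeneous_one _ _
      · intro _ b
        refine Fin.cases ?_ ?_ b
        · simpa using hik
        · intro b
          simp
      · intro _
        rw [Fin.sum_univ_succ]
        simp
      · simp [Fin.prod_univ_succ]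
    · push Not at hik
      have hc : ∀ i, ∃ c : Pairs d (d i) → ℝ≥0,
          k < d i → ∑ q : Pairs d (d i), c q • (F q.1.1 * F q.1.2) = F i := by
        intro i
        by_cases h : k < d i
        · obtain ⟨c, hc⟩ := (Submodule.mem_span_range_iff_exists_fun ℝ≥0).1 (hS.dec i h)
          exact ⟨c, fun _ => hc⟩
        · exact ⟨fun _ => 0, fun h' => absurd h' h⟩
      choose c hc using hc
      have hsum := ctx_sum hc _ i rfl hik
      set J : Finset ι := univ.filter (fun j => k < 2 * d j ∧ d j ≤ k) with hJ
      have hJm : ∀ j : J, k < 2 * d j.1 ∧ d j.1 ≤ k := by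
        intro j
        exact (Finset.mem_filter.1 j.2).2
      have hstep : ∀ j : J, ∃ (I : Type) (_ : Fintype I) (P : I → Fin (r + 1) → MvPolynomial V ℝ≥0)
        (δ : I → Fin (r + 1) → ℕ),
        Fintype.card I ≤ Nr r (2 * Fintype.card ι) ∧
        (∀ a b, (P a b).IsHomogeneous (δ a b)) ∧
        (∀ a b, δ a b ≤ k) ∧ (∀ a, ∑ b, δ a b = d i - d j.1) ∧
        ctx F d k c j.1 i = ∑ a, ∏ b, P a b := by
        intro j
        have hsys := ext_sys (c := c) hk1 hS j.1 (hJm j).2
        have hd : extd d k j.1 (Sum.inr i) = d i - d j.1 := by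
          simp only [extd, Sum.elim_inr, if_pos hik]
        have hF : extF F d k c j.1 (Sum.inr i) = ctx F d k c j.1 i := by
          simp only [extF, Sum.elim_inr, if_pos hik]
        have h2 : 2 * extd d k j.1 (Sum.inr i) ≤ (r + 2) * k := by
          rw [hd]
          have := (hJm j).1
          have h3 : (r + 1 + 2) * k = (r + 2) * k + k := by ring
          omega
        obtain ⟨I, hI, P, δ, h3, h4, h5, h6, h7⟩ := ih (ι ⊕ ι) _ _ hsys (Sum.inr i) h2
        refine ⟨I, hI, P, δ, ?_, h4, h5, ?_, ?_⟩
        · rw [Fintype.card_sum, ← two_mul] at h3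
          exact h3
        · rw [hd] at h6; exact h6
        · rw [hF] at h7; exact h7
      choose I hI P δ h3 h4 h5 h6 h7 using hstep
      refine ⟨Σ j : J, I j, inferInstance,
        fun a => Fin.cons (F a.1.1) (P a.1 a.2),
        fun a => Fin.cons (d a.1.1) (δ a.1 a.2), ?_, ?_, ?_, ?_, ?_⟩
      · rw [Fintype.card_sigma]
        calc ∑ j : J, Fintype.card (I j) ≤ ∑ j : J, Nr r (2 * Fintype.card ι) :=
              Finset.sum_le_sum fun j _ => h3 j
          _ = Fintype.card J * Nr r (2 * Fintype.card ι) := by simp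
          _ ≤ Fintype.card ι * Nr r (2 * Fintype.card ι) := by
              apply Nat.mul_le_mul_right
              rw [Fintype.card_coe]
              exact Finset.card_le_univ _
      · rintro a b
        refine Fin.cases ?_ ?_ b
        · simpa using hS.hom a.1.1
        · intro b
          simpa using h4 a.1 a.2 b
      · rintro a b
        refine Fin.cases ?_ ?_ b
        · simpa using (hJm a.1).2
        · intro b
          simpa using h5 a.1 a.2 b
      · intro a
        rw [Fin.sum_univ_succ]
        simp only [Fin.cons_zero, Fin.cons_succ]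
        rw [h6 a.1 a.2]
        have := (hJm a.1).2
        omega
      · rw [hsum, ← Finset.sum_coe_sort J, Fintype.sum_sigma]
        apply Finset.sum_congr rfl
        intro j _
        rw [h7 j, Finset.mul_sum]
        apply Finset.sum_congr rfl
        intro a _
        rw [Fin.prod_univ_succ (n := r + 1)]
        simp only [Fin.cons_zero, Fin.cons_succ]

end Pool.Agent.J4H60.PM
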