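import Mathlib

set_option autoImplicit false

namespace Pool.Agent.J4H60.PM

open Finset
open scoped NNReal

/-- the inequality for one letter -/
def SL (t : ℕ) (p : ℝ) : Prop :=
  ∀ a b : Fin t → ℝ≥0,
    ∑ i, (b i) ^ p * ∏ j ∈ univ.erase i, (a j) ^ p ≤ ∏ j, (a j + b j) ^ p

theorem tensor {t : ℕ} {p : ℝ} (h : SL t p) (m : ℕ) :
    ∀ A : Fin t → (Fin m → Bool) → ℝ≥0,
      ∑ w : Fin m → Fin t, ∏ j, (A j (fun i => decide (w i = j))) ^ p ≤
        ∏ j, (∑ y, A j y) ^ p := by
  induction m with
  | zero =>
    intro A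
    simp only [Finset.univ_unique, Finset.sum_singleton]
    apply le_of_eq
    apply Finset.prod_congr rfl
    intro j _
    congr 2
    exact Subsingleton.elim _ _
  | succ m ih =>
    intro A
    have e1 : ∑ w : Fin (m + 1) → Fin t, ∏ j, (A j (fun i => decide (w i = j))) ^ p =
        ∑ i : Fin t, ∑ w : Fin m → Fin t,
          ∏ j, (A j (Fin.cons (decide (i = j)) (fun l => decide (w l = j)))) ^ p := by
      rw [← Fintype.sum_prod_type' (f := fun (i : Fin t) (w : Fin m → Fin t) =>
          ∏ j, (A j (Fin.cons (decide (i = j)) (fun l => decide (w l = j)))) ^ p)]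
      symm
      apply Fintype.sum_equiv (Fin.consEquiv (fun _ => Fin t))
      rintro ⟨i, w⟩
      apply Finset.prod_congr rfl
      intro j _
      congr 2
      funext l
      refine Fin.cases ?_ ?_ l
      · simp [Fin.consEquiv]
      · intro l
        simp [Fin.consEquiv]
    rw [e1]
    have e2 : ∀ i : Fin t, ∑ w : Fin m → Fin t,
          ∏ j, (A j (Fin.cons (decide (i = j)) (fun l => decide (w l = j)))) ^ p ≤
        (∑ y : Fin m → Bool, A i (Fin.cons true y)) ^ p *
          ∏ j ∈ univ.erase i, (∑ y : Fin m → Bool, A j (Fin.cons false y)) ^ p := by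
      intro i
      have h1 := ih (fun j y => A j (Fin.cons (decide (i = j)) y))
      refine le_trans h1 ?_
      rw [← Finset.mul_prod_erase univ _ (Finset.mem_univ i)]
      apply le_of_eq
      congr 1
      · simp
      · apply Finset.prod_congr rfl
        intro j hj
        have : i ≠ j := fun hh => (Finset.mem_erase.1 hj).1 hh.symm
        simp [this]
    refine le_trans (Finset.sum_le_sum fun i _ => e2 i) ?_
    refine le_trans (h _ _) ?_
    apply le_of_eq
    apply Finset.prod_congr rfl
    intro j _
    congr 1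
    have e3 : ∑ y : Fin (m + 1) → Bool, A j y =
        ∑ b : Bool, ∑ y : Fin m → Bool, A j (Fin.cons b y) := by
      rw [← Fintype.sum_prod_type' (f := fun (b : Bool) (y : Fin m → Bool) =>
          A j (Fin.cons b y))]
      symm
      apply Fintype.sum_equiv (Fin.consEquiv (fun _ => Bool))
      rintro ⟨i, w⟩
      rfl
    rw [e3]
    simp [add_comm]

end Pool.Agent.J4H60.PM
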